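import Pool.Agent.Helper70_MWR.Result
import Pool.Agent.Helper44_MWU.Sys
import Pool.Agent.MWZ.FullStmts

/-!
# The block theorems of the beta world for all periods in the form of the top level assembly
(helper70)
-/

set_option autoImplicit false

namespace Pool.Agent.Helper70_MWR.Brg

open Pool.Agent.Helper14_MV Pool.Agent.Helper2_MV Pool.Agent.MWZ Pool.Agent.MWU

theorem rev_eq (β : FIC) : RR (FIC.op β) = Rev (RR β) := by
  funext u v
  exact propext MWB.rr_op

theorem wn_of {n : ℕ} {S : List ℕ → List ℕ → Prop} (h : LW n S) : Wn n S :=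
  ⟨h.1, h.2.2.1, h.2.2.2⟩

theorem bn_of {n : ℕ} {S : List ℕ → List ℕ → Prop} (h : LB n S) : Bn n S :=
  fun l hl => ⟨h.1 l hl, h.2 l hl⟩

theorem bet_rev {n : ℕ} {β : FIC} (h : Bet n (RR β)) : Bet n (Rev (RR β)) := by
  show RR β [0, 1, 0].reverse (X (n + 1) ++ 1 :: X (n + 1)).reverse
  have e : (X (n + 1) ++ 1 :: X (n + 1)).reverse = X (n + 1) ++ 1 :: X (n + 1) := by
    rw [List.reverse_append, List.reverse_cons, List.reverse_replicate, List.append_assoc]
    rfl
  rw [e]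
  exact h

/-- necessity -/
theorem necAll {n : ℕ} {β : FIC} (hn : 1 ≤ n) (hper : Per n (RR β))
    (hncr : ∀ k : ℕ, 1 ≤ k → ¬ β.r (lx ^ (k + 1)) lx) (hb : Bet n (RR β)) (hm : ModF β) :
    SB n (RR β) ∨ SB n (Rev (RR β)) := by
  rcases nec hn hper hncr hb hm with h | h | h
  · exact Or.inl ⟨hb, Or.inl (wn_of h)⟩
  · rw [rev_eq] at h
    exact Or.inr ⟨bet_rev hb, Or.inl (wn_of h)⟩
  · exact Or.inl ⟨hb, Or.inr (bn_of h)⟩

/-- sufficiency, distributive form -/
theorem sufAll {n : ℕ} {β : FIC} (hn : 1 ≤ n) (hper : Per n (RR β)) (h : SB n (RR β)) :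
    DistF β := by
  obtain ⟨hb, h | h⟩ := h
  · exact CompS.mwbn_w1n n β (MWBN.H85.clW_of hn hper hb h.1 h.2.1 h.2.2)
  · exact CompS.mwbn_b2n n β (MWBN.H85.clB_of CompS.mwbn_idn hn hper hb (fun l hl => h l hl))

/-- `Nec` of MWU for every set of periods -/
theorem bN (Q : ℕ → Prop) : Nec Q (fun n β => Bet n (RR β)) SB :=
  fun _ _ hn _ hper hncr _ hm hb => necAll hn hper hncr hb hm

/-- `Suf` of MWU for every set of periods -/
theorem bS (Q : ℕ → Prop) : Suf Q SB :=
  fun _ _ hn _ hper h => distF_modF (sufAll hn hper h)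

/-- `NecB1` of MWZ for every period -/
theorem necB1 {n : ℕ} (hn : 1 ≤ n) : NecB1 SB n := by
  intro β hper hncr hb hm
  have h := necAll hn hper hncr hb hm
  rw [← rev_eq] at h
  exact h

/-- `SufB1` of MWZ for every period -/
theorem sufB1 {n : ℕ} (hn : 1 ≤ n) : SufB1 SB n :=
  fun _ hper _ _ h => distF_modF (sufAll hn hper h)

end Pool.Agent.Helper70_MWR.Brg
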