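import Mathlib

/-!
# The beta world for period `n`: algebra in the relatively free monoid (helper70)

`a² = a^(n+2)`, `aba = a^(n+1) b a^(n+1)`, and powers with exponent at least two do not depend on the
order of the factors.
-/

set_option autoImplicit false

namespace Pool.Agent.Helper70_MWR

/-- `a² = a^(n+2)`, and powers with exponent at least two do not depend on the order -/
structure Wc (n : ℕ) (M : Type*) [Monoid M] : Prop where
  pos : 1 ≤ n
  per : ∀ a : M, a ^ 2 = a ^ (n + 2)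
  cm : ∀ k : ℕ, 2 ≤ k → ∀ p a b q : M, (p * a * b * q) ^ k = (p * b * a * q) ^ k

/-- the identities of the beta world -/
structure Wd (n : ℕ) (M : Type*) [Monoid M] : Prop extends Wc n M where
  bet : ∀ a b : M, a * b * a = a ^ (n + 1) * b * a ^ (n + 1)

namespace Wc

variable {M : Type*} [Monoid M] {n : ℕ} (H : Wc n M)
include H

theorem per1 (a : M) {i : ℕ} (hi : 2 ≤ i) : a ^ (i + n) = a ^ i := by
  obtain ⟨j, rfl⟩ := Nat.exists_eq_add_of_le hi
  have e : 2 + j + n = (n + 2) + j := by ring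
  rw [e, pow_add, ← H.per, ← pow_add]

theorem perk (a : M) {i : ℕ} (hi : 2 ≤ i) (k : ℕ) : a ^ (i + n * k) = a ^ i := by
  induction k with
  | zero => simp
  | succ k ih =>
    have e : i + n * (k + 1) = (i + n * k) + n := by ring
    rw [e, H.per1 a (by omega), ih]

theorem pw (a : M) {i j : ℕ} (hi : 2 ≤ i) (hj : 2 ≤ j) (h : i ≡ j [MOD n]) : a ^ i = a ^ j := by
  rcases Nat.le_total i j with hl | hl
  · have h1 : n ∣ j - i := (Nat.modEq_iff_dvd' hl).1 h
    obtain ⟨k, hk⟩ := h1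
    have e : j = i + n * k := by omega
    rw [e, H.perk a hi]
  · have h1 : n ∣ i - j := (Nat.modEq_iff_dvd' hl).1 h.symm
    obtain ⟨k, hk⟩ := h1
    have e : i = j + n * k := by omega
    rw [e, H.perk a hj]

/-- the idempotent power -/
theorem ee (a : M) : a ^ (2 * n) * a ^ (2 * n) = a ^ (2 * n) := by
  have := H.pos
  rw [← pow_add]
  have e : 2 * n + 2 * n = 2 * n + n * 2 := by ring
  rw [e, H.perk a (by omega)]

theorem epow (a : M) {k : ℕ} (hk : 1 ≤ k) : (a ^ (2 * n)) ^ k = a ^ (2 * n) := by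
  induction k with
  | zero => omega
  | succ k ih =>
    rcases Nat.eq_zero_or_pos k with h | h
    · subst h; simp
    · rw [pow_succ, ih h, H.ee]

/-- an idempotent is its own idempotent power -/
theorem eid {a : M} (h : a * a = a) {k : ℕ} (hk : 1 ≤ k) : a ^ k = a := by
  induction k with
  | zero => omega
  | succ k ih =>
    rcases Nat.eq_zero_or_pos k with h1 | h1
    · subst h1; simp
    · rw [pow_succ, ih h1, h]

theorem eid2 {a : M} (h : a * a = a) : a ^ (2 * n) = a := by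
  have := H.pos
  exact H.eid h (by omega)

/-- `a^i` with `i ≥ 2` absorbs the idempotent power -/
theorem ea (a : M) {i : ℕ} (hi : 2 ≤ i) : a ^ (2 * n) * a ^ i = a ^ i := by
  rw [← pow_add]
  have e : 2 * n + i = i + n * 2 := by ring
  rw [e, H.perk a hi]

theorem ae (a : M) {i : ℕ} (hi : 2 ≤ i) : a ^ i * a ^ (2 * n) = a ^ i := by
  rw [← pow_add]
  have e : i + 2 * n = i + n * 2 := by ring
  rw [e, H.perk a hi]

end Wc

namespace Wd

variable {M : Type*} [Monoid M] {n : ℕ} (H : Wd n M)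
include H

/-- `a b a = a^(2n+1) b a^(2n+1)` -/
theorem bet2 (a b : M) : a * b * a = a ^ (2 * n + 1) * b * a ^ (2 * n + 1) := by
  have := H.pos
  have e : a ^ (2 * n + 1) = a ^ (n + 1) := by
    have e1 : 2 * n + 1 = (n + 1) + n * 1 := by ring
    rw [e1, H.perk a (by omega)]
  rw [e, H.bet]

/-- one sided version -/
theorem betl (a b : M) : a * b * a = a ^ (2 * n + 1) * b * a := by
  have := H.pos
  have h1 := H.bet2 a b
  have e1 : a ^ (2 * n + 1) = a ^ (2 * n) * a := pow_succ _ _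
  have h2 : a ^ (2 * n) * (a ^ (2 * n + 1) * b * a ^ (2 * n + 1)) =
      a ^ (2 * n + 1) * b * a ^ (2 * n + 1) := by
    rw [← mul_assoc, ← mul_assoc, H.ea a (by omega)]
  calc a * b * a = a ^ (2 * n + 1) * b * a ^ (2 * n + 1) := h1
    _ = a ^ (2 * n) * (a ^ (2 * n + 1) * b * a ^ (2 * n + 1)) := h2.symm
    _ = a ^ (2 * n) * (a * b * a) := by rw [← h1]
    _ = a ^ (2 * n + 1) * b * a := by rw [e1]; simp only [mul_assoc]

theorem betr (a b : M) : a * b * a = a * b * a ^ (2 * n + 1) := by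
  have := H.pos
  have h1 := H.bet2 a b
  have e1 : a ^ (2 * n + 1) = a * a ^ (2 * n) := pow_succ' _ _
  have h2 : (a ^ (2 * n + 1) * b * a ^ (2 * n + 1)) * a ^ (2 * n) =
      a ^ (2 * n + 1) * b * a ^ (2 * n + 1) := by
    rw [mul_assoc, H.ae a (by omega)]
  calc a * b * a = a ^ (2 * n + 1) * b * a ^ (2 * n + 1) := h1
    _ = (a ^ (2 * n + 1) * b * a ^ (2 * n + 1)) * a ^ (2 * n) := h2.symm
    _ = (a * b * a) * a ^ (2 * n) := by rw [← h1]
    _ = a * b * a ^ (2 * n + 1) := by rw [e1]; simp only [mul_assoc]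

/-- `a b a = e_a (a b a) e_a` -/
theorem ebe (a b : M) : a ^ (2 * n) * (a * b * a) = a * b * a := by
  have h := H.betl a b
  have e1 : a ^ (2 * n + 1) = a ^ (2 * n) * a := pow_succ _ _
  rw [e1] at h
  simp only [mul_assoc] at h ⊢
  exact h.symm

theorem ebe' (a b : M) : (a * b * a) * a ^ (2 * n) = a * b * a := by
  have h := H.betr a b
  have e1 : a ^ (2 * n + 1) = a * a ^ (2 * n) := pow_succ' _ _
  rw [e1] at h
  simp only [mul_assoc] at h ⊢
  exact h.symm

end Wd

/-! ### the congruence of equal powers -/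

/-- all powers with exponent at least two agree in every context -/
def Eqv {M : Type*} [Monoid M] (u v : M) : Prop :=
  ∀ k : ℕ, 2 ≤ k → ∀ p q : M, (p * u * q) ^ k = (p * v * q) ^ k

namespace Eqv

variable {M : Type*} [Monoid M]

theorem refl (u : M) : Eqv u u := fun _ _ _ _ => rfl

theorem symm {u v : M} (h : Eqv u v) : Eqv v u := fun k hk p q => (h k hk p q).symm

theorem trans {u v w : M} (h : Eqv u v) (h' : Eqv v w) : Eqv u w :=
  fun k hk p q => (h k hk p q).trans (h' k hk p q)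

theorem mul {u v u' v' : M} (h : Eqv u v) (h' : Eqv u' v') : Eqv (u * u') (v * v') := by
  intro k hk p q
  have h1 := h k hk p (u' * q)
  have h2 := h' k hk (p * v) q
  have e1 : p * (u * u') * q = p * u * (u' * q) := by simp only [mul_assoc]
  have e2 : p * v * (u' * q) = p * v * u' * q := by simp only [mul_assoc]
  have e3 : p * v * v' * q = p * (v * v') * q := by simp only [mul_assoc]
  rw [e1, h1, e2, h2, e3]

theorem pw {u v : M} (h : Eqv u v) {k : ℕ} (hk : 2 ≤ k) : u ^ k = v ^ k := by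
  have := h k hk 1 1
  simpa using this

end Eqv

namespace Wc

variable {M : Type*} [Monoid M] {n : ℕ} (H : Wc n M)
include H

theorem comm (a b : M) : Eqv (a * b) (b * a) := by
  intro k hk p q
  have := H.cm k hk p a b q
  simpa only [mul_assoc] using this

theorem mulpow (a b : M) (j : ℕ) : Eqv ((a * b) ^ j) (a ^ j * b ^ j) := by
  induction j with
  | zero => simpa using Eqv.refl (1 : M)
  | succ j ih =>
    have h1 : Eqv ((a * b) ^ (j + 1)) (a ^ j * b ^ j * (a * b)) := by
      rw [pow_succ]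
      exact ih.mul (Eqv.refl _)
    have h2 : Eqv (a ^ j * b ^ j * (a * b)) (a ^ (j + 1) * b ^ (j + 1)) := by
      have e1 : a ^ j * b ^ j * (a * b) = a ^ j * ((b ^ j * a) * b) := by simp only [mul_assoc]
      have e2 : a ^ (j + 1) * b ^ (j + 1) = a ^ j * ((a * b ^ j) * b) := by
        rw [pow_succ, pow_succ]; simp only [mul_assoc]
      rw [e1, e2]
      exact (Eqv.refl _).mul ((H.comm _ _).mul (Eqv.refl _))
    exact h1.trans h2

/-- the zero of two letters -/
theorem zdef (a b : M) : (a * b) ^ (2 * n) = (a ^ (2 * n) * b ^ (2 * n)) ^ 2 := by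
  have h := (H.mulpow a b (2 * n)).pw (k := 2) (le_refl 2)
  rw [pow_two, H.ee] at h
  exact h

theorem zsymm (a b : M) : (a * b) ^ (2 * n) = (b * a) ^ (2 * n) := by
  have := H.pos
  exact (H.comm a b).pw (by omega)

theorem zz (a b : M) : (a * b) ^ (2 * n) * (a * b) ^ (2 * n) = (a * b) ^ (2 * n) := H.ee _

theorem ez (a b : M) : a ^ (2 * n) * (a * b) ^ (2 * n) = (a * b) ^ (2 * n) := by
  rw [H.zdef, pow_two]
  simp only [← mul_assoc]
  rw [H.ee]

theorem ze (a b : M) : (a * b) ^ (2 * n) * a ^ (2 * n) = (a * b) ^ (2 * n) := by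
  rw [H.zsymm, H.zdef, pow_two]
  simp only [mul_assoc]
  rw [H.ee]

theorem ez' (a b : M) : b ^ (2 * n) * (a * b) ^ (2 * n) = (a * b) ^ (2 * n) := by
  rw [H.zsymm, H.ez]

theorem ze' (a b : M) : (a * b) ^ (2 * n) * b ^ (2 * n) = (a * b) ^ (2 * n) := by
  rw [H.zsymm, H.ze]

/-- the zero commutes with the letters -/
theorem zc (a b : M) : a * (a * b) ^ (2 * n) = (a * b) ^ (2 * n) * a := by
  have hn := H.pos
  have hidb : (b ^ (2 * n)) ^ (2 * n) = b ^ (2 * n) := H.epow b (by omega)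
  -- the zero as a power of `a e_b` and of `e_b a`
  have h1 : (a * b ^ (2 * n)) ^ (2 * n) = (a * b) ^ (2 * n) := by
    rw [H.zdef a (b ^ (2 * n)), hidb, ← H.zdef]
  have h2 : (b ^ (2 * n) * a) ^ (2 * n) = (a * b) ^ (2 * n) := by
    rw [← H.zsymm, h1]
  have h3 : (a * b ^ (2 * n)) * (a * b) ^ (2 * n) = (a * b) ^ (2 * n) * (a * b ^ (2 * n)) := by
    rw [← h1, ← pow_succ', ← pow_succ]
  have h4 : (b ^ (2 * n) * a) * (a * b) ^ (2 * n) = (a * b) ^ (2 * n) * (b ^ (2 * n) * a) := by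
    rw [← h2, ← pow_succ', ← pow_succ]
  have h5 : a * (a * b) ^ (2 * n) = (a * b) ^ (2 * n) * (a * b ^ (2 * n)) := by
    rw [← h3, mul_assoc, H.ez']
  have h6 : (a * b) ^ (2 * n) * a = (b ^ (2 * n) * a) * (a * b) ^ (2 * n) := by
    rw [h4, ← mul_assoc, H.ze']
  have h7 : (a * b) ^ (2 * n) * a * (a * b) ^ (2 * n) = a * (a * b) ^ (2 * n) := by
    rw [mul_assoc, h5, ← mul_assoc, H.zz]
  have h8 : (a * b) ^ (2 * n) * a * (a * b) ^ (2 * n) = (a * b) ^ (2 * n) * a := by
    rw [h6, mul_assoc, H.zz]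
  rw [← h7, h8]

theorem zc' (a b : M) : b * (a * b) ^ (2 * n) = (a * b) ^ (2 * n) * b := by
  rw [H.zsymm, H.zc]

/-- the letters commute below the zero -/
theorem zab (a b : M) : (a * b) ^ (2 * n) * (a * b) = (a * b) ^ (2 * n) * (b * a) := by
  have hn := H.pos
  rw [← pow_succ]
  conv_rhs => rw [H.zsymm, ← pow_succ]
  exact (H.comm a b).pw (by omega)

theorem zcp (a b : M) (i : ℕ) : a ^ i * (a * b) ^ (2 * n) = (a * b) ^ (2 * n) * a ^ i := by
  induction i with
  | zero => simp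
  | succ i ih => rw [pow_succ, mul_assoc, H.zc, ← mul_assoc, ih, mul_assoc]

theorem zcp' (a b : M) (i : ℕ) : b ^ i * (a * b) ^ (2 * n) = (a * b) ^ (2 * n) * b ^ i := by
  rw [H.zsymm, H.zcp]

end Wc

end Pool.Agent.Helper70_MWR
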