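import Pool.Agent.Helper70_MWR.Ex

/-!
# The literal identities of the class B (helper70)
-/

set_option autoImplicit false

namespace Pool.Agent.Helper70_MWR

open Pool.Agent.Helper14_MV Pool.Agent.Helper2_MV Pool.Agent.Helper44_MVT
open Pool.Agent.MWPN (ip DV Mul)
open Pool.Agent.MWPN.C (Chw rtr rep_mod)

/-- every letter `k` times -/
def pk (k : ℕ) (l : List ℕ) : List ℕ := l.flatMap (fun c => List.replicate k c)

theorem mem_pk {k : ℕ} {l : List ℕ} {c : ℕ} (h : c ∈ pk k l) : c ∈ l := by
  obtain ⟨d, hd, h1⟩ := List.mem_flatMap.1 h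
  rw [List.eq_of_mem_replicate h1]
  exact hd

theorem pk_mul {k : ℕ} (hk : 2 ≤ k) (l : List ℕ) : Mul (pk k l) := by
  intro c hc
  have h1 := mem_pk hc
  obtain ⟨A, B, rfl⟩ := List.append_of_mem h1
  unfold pk
  rw [List.flatMap_append, List.flatMap_cons]
  have h2 : [c, c].Sublist (List.replicate k c) := by
    have : [c, c] = List.replicate 2 c := rfl
    rw [this]
    exact List.replicate_sublist_replicate c |>.2 hk
  exact (h2.trans (List.sublist_append_left _ _)).trans (List.sublist_append_right _ _)

theorem pk_sorted (k : ℕ) : ∀ l : List ℕ, l.Pairwise (· ≤ ·) → (pk k l).Pairwise (· ≤ ·) := by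
  intro l h
  unfold pk
  rw [List.pairwise_flatMap]
  constructor
  · intro a _
    rw [List.pairwise_replicate]
    exact Or.inr (le_refl a)
  · refine h.imp ?_
    intro a b hab x hx y hy
    rw [List.eq_of_mem_replicate hx, List.eq_of_mem_replicate hy]
    exact hab

theorem pk_chw (k r : ℕ) : Chw (pk k (List.range r)) := by
  intro a b hab h1 h2
  have hs := pk_sorted k (List.range r) ((List.pairwise_lt_range (n := r)).imp (fun h => le_of_lt h))
  have h3 := hs.sublist h1
  have h4 := hs.sublist h2
  simp only [List.pairwise_cons, List.mem_singleton, forall_eq] at h3 h4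
  exact hab (le_antisymm h3.1 h4.1)

/-- the substitution of the letters from `3` on by the letters of `l` -/
def gs (l : List ℕ) (c : ℕ) : List ℕ := if c < 3 then [c] else [l.getD (c - 3) 0]

theorem gs_pk (k : ℕ) (l : List ℕ) :
    ((pk k (List.range l.length)).map (fun c => c + 3)).flatMap (gs l) = pk k l := by
  have e1 : ∀ m : List ℕ, ((pk k m).map (fun c => c + 3)).flatMap (gs l) =
      pk k (m.map (fun i => l.getD i 0)) := by
    intro m
    induction m with
    | nil => rfl
    | cons i m ih =>
      unfold pk at ih ⊢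
      rw [List.flatMap_cons, List.map_append, List.flatMap_append, ih, List.map_cons,
        List.flatMap_cons]
      congr 1
      rw [List.map_replicate]
      have e : ∀ j : ℕ, (List.replicate j (i + 3)).flatMap (gs l) =
          List.replicate j (l.getD i 0) := by
        intro j
        induction j with
        | zero => rfl
        | succ j ih2 =>
          rw [List.replicate_succ, List.flatMap_cons, ih2, List.replicate_succ]
          unfold gs
          rw [if_neg (by omega), Nat.add_sub_cancel]
          rfl
      exact e k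
  rw [e1]
  congr 1
  apply List.ext_getElem
  · simp
  · intro i h1 h2
    simp [List.getElem?_eq_getElem h2]

variable {β : FIC}

/-- `x v y t x y ≈ x v y t y x` for all products `v` of `k`-th powers -/
theorem right_lit {k : ℕ} (hk : 2 ≤ k) (hD : ∀ v : List ℕ, Mul v → Chw v → DV β v) (l : List ℕ) :
    RR β (0 :: (pk k l ++ [1, 2, 0, 1])) (0 :: (pk k l ++ [1, 2, 1, 0])) := by
  have h1 := hD (pk k (List.range l.length)) (pk_mul hk _) (pk_chw k _)
  unfold DV at h1
  have h2 := h1.sub (gs l)
  have e : ∀ s : List ℕ, (0 :: ((pk k (List.range l.length)).map (fun c => c + 3) ++ s)).flatMap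
      (gs l) = 0 :: (pk k l ++ s.flatMap (gs l)) := by
    intro s
    rw [List.flatMap_cons, List.flatMap_append, gs_pk]
    rfl
  rw [e, e] at h2
  exact h2

theorem pk_reverse (k : ℕ) (l : List ℕ) : (pk k l).reverse = pk k l.reverse := by
  induction l with
  | nil => rfl
  | cons c l ih =>
    unfold pk at ih ⊢
    rw [List.flatMap_cons, List.reverse_append, ih, List.reverse_cons, List.flatMap_append,
      List.reverse_replicate]
    simp

theorem swap_pk (k : ℕ) {l : List ℕ} (hl : ∀ c ∈ l, 3 ≤ c) :
    (pk k l).flatMap (fun c => if c = 0 then [1] else if c = 1 then [0] else [c]) = pk k l := by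
  have h : ∀ c ∈ pk k l, (fun c => if c = 0 then [1] else if c = 1 then [0] else [c]) c = [c] := by
    intro c hc
    have h1 := hl c (mem_pk hc)
    have h2 : c ≠ 0 := by omega
    have h3 : c ≠ 1 := by omega
    simp only [h2, h3, if_false]
  rw [List.flatMap_congr h, List.flatMap_singleton']

theorem left_lit {k : ℕ} (hk : 2 ≤ k)
    (hD : ∀ v : List ℕ, Mul v → Chw v → DV (FIC.op β) v) (l : List ℕ) (hl : ∀ c ∈ l, 3 ≤ c) :
    RR β ([0, 1, 2, 0] ++ (pk k l ++ [1])) ([1, 0, 2, 0] ++ (pk k l ++ [1])) := by
  have h1 := right_lit hk hD l.reverse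
  rw [MWB.rr_op] at h1
  have e1 : (0 :: (pk k l.reverse ++ [1, 2, 0, 1])).reverse = [1, 0, 2, 1] ++ (pk k l ++ [0]) := by
    rw [List.reverse_cons, List.reverse_append, pk_reverse, List.reverse_reverse]
    simp
  have e2 : (0 :: (pk k l.reverse ++ [1, 2, 1, 0])).reverse = [0, 1, 2, 1] ++ (pk k l ++ [0]) := by
    rw [List.reverse_cons, List.reverse_append, pk_reverse, List.reverse_reverse]
    simp
  rw [e1, e2] at h1
  have h2 := h1.sub (fun c => if c = 0 then [1] else if c = 1 then [0] else [c])
  rw [List.flatMap_append, List.flatMap_append, List.flatMap_append, List.flatMap_append,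
    swap_pk k hl] at h2
  simpa using h2

/-! ### change of the exponent -/

theorem pk_mod {n : ℕ} (hper : RR β [0, 0] (List.replicate (n + 2) 0)) {p q : ℕ} (hp : 2 ≤ p)
    (hq : 2 ≤ q) (h : p ≡ q [MOD n]) (l : List ℕ) : RR β (pk p l) (pk q l) := by
  induction l with
  | nil => exact RR.refl []
  | cons c l ih =>
    unfold pk at ih ⊢
    rw [List.flatMap_cons, List.flatMap_cons]
    exact (rep_mod hper c hp hq h).append ih

/-! ### duality -/

variable {n : ℕ}

theorem Hy.op (H : Hy n β) : Hy n (FIC.op β) where
  pos := H.pos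
  per := by
    rw [MWB.rr_op, List.reverse_replicate]
    exact H.per
  bet := by
    rw [MWB.rr_op]
    have e : (List.replicate (n + 1) 0 ++ 1 :: List.replicate (n + 1) 0).reverse =
        List.replicate (n + 1) 0 ++ 1 :: List.replicate (n + 1) 0 := by
      rw [List.reverse_append, List.reverse_cons, List.reverse_replicate, List.append_assoc]
      rfl
    rw [e]
    exact H.bet
  hm := op_modF H.hm
  ncr := MWB.ncr_op H.ncr

end Pool.Agent.Helper70_MWR
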