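import Pool.Agent.Helper70_MWR.BLit

/-!
# Necessity in the beta world for all periods (helper70)
-/

set_option autoImplicit false

namespace Pool.Agent.Helper70_MWR

open Pool.Agent.Helper14_MV Pool.Agent.Helper2_MV Pool.Agent.Helper44_MVT
open Pool.Agent.MWPN (ip DV Mul)
open Pool.Agent.MWPN.C (Chw Two rtr rep_mod BtC btC fin)

/-- the local words in two letters -/
def Loc2 (n : ℕ) (β : FIC) : Prop :=
  ∀ u v : List ℕ, Two u → Mul u → Mul v → (∀ a, a ∈ u ↔ a ∈ v) →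
    (∀ a, u.count a ≡ v.count a [MOD n]) →
      (∀ a b, a ≠ b → ([a, b].Sublist u ↔ [a, b].Sublist v)) → RR β u v

/-- `xyxy ≈ yxyx ≈ xy²x ≈ yx²y` and `x y² t x ≈ x y² x^n t x` -/
def LW (n : ℕ) (S : List ℕ → List ℕ → Prop) : Prop :=
  S [0, 1, 0, 1] [1, 0, 1, 0] ∧ S [0, 1, 0, 1] [0, 1, 1, 0] ∧ S [0, 1, 0, 1] [1, 0, 0, 1] ∧
    S [0, 1, 1, 2, 0] ([0, 1, 1] ++ (List.replicate n 0 ++ [2, 0]))

/-- `x v y t x y ≈ x v y t y x` and `x y t x v y ≈ y x t x v y`, `v` a product of `(n+1)`-th powers -/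
def LB (n : ℕ) (S : List ℕ → List ℕ → Prop) : Prop :=
  (∀ l : List ℕ, (∀ c ∈ l, 3 ≤ c) →
    S (0 :: (pk (n + 1) l ++ [1, 2, 0, 1])) (0 :: (pk (n + 1) l ++ [1, 2, 1, 0]))) ∧
  ∀ l : List ℕ, (∀ c ∈ l, 3 ≤ c) →
    S ([0, 1, 2, 0] ++ (pk (n + 1) l ++ [1])) ([1, 0, 2, 0] ++ (pk (n + 1) l ++ [1]))

variable {n : ℕ} {β : FIC}

/-- the least period -/
structure Ex (n : ℕ) (β : FIC) : Prop extends Hy n β where
  ex : ∀ p q : ℕ, RR β (List.replicate p 0) (List.replicate q 0) →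
    p = q ∨ (2 ≤ p ∧ 2 ≤ q ∧ p ≡ q [MOD n])

theorem Ex.op (H : Ex n β) : Ex n (FIC.op β) := by
  refine ⟨H.toHy.op, ?_⟩
  intro p q h
  rw [MWB.rr_op, List.reverse_replicate, List.reverse_replicate] at h
  exact H.ex p q h

/-- the hypothesis of block MWPC -/
theorem Ex.bt (H : Ex n β) (hl : Loc2 n β)
    (h : ¬ RR β (ip n 0 ++ ip n 1 ++ 2 :: ip n 0) (ip n 0 ++ ip n 1 ++ ip n 0 ++ 2 :: ip n 0)) :
    BtC n β := btC H.pos H.per H.ex H.bet hl h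

/-- necessity for the least period -/
theorem nec0 (hL : ∀ β : FIC, Hy n β → Loc2 n β) (H : Ex n β) (k : ℕ) :
    LW (n * k) (RR β) ∨ LW (n * k) (RR (FIC.op β)) ∨ LB (n * k) (RR β) ∨ (k = 0) := by
  rcases Nat.eq_zero_or_pos k with hk | hk
  · exact Or.inr (Or.inr (Or.inr hk))
  have hn := H.pos
  have hnk : 1 ≤ n * k := Nat.mul_pos hn hk
  by_cases h : RR β (ip n 0 ++ ip n 1 ++ 2 :: ip n 0) (ip n 0 ++ ip n 1 ++ ip n 0 ++ 2 :: ip n 0)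
  · exact Or.inl ⟨zq1 H.toHy, zq2 H.toHy, zq3 H.toHy, litW_mul k (litW H.toHy h)⟩
  by_cases h' : RR (FIC.op β) (ip n 0 ++ ip n 1 ++ 2 :: ip n 0)
      (ip n 0 ++ ip n 1 ++ ip n 0 ++ 2 :: ip n 0)
  · have H' := H.op.toHy
    exact Or.inr (Or.inl ⟨zq1 H', zq2 H', zq3 H', litW_mul k (litW H' h')⟩)
  · refine Or.inr (Or.inr (Or.inl ⟨?_, ?_⟩))
    · intro l _
      exact right_lit (by omega) (fin n β (H.bt (hL β H.toHy) h) H.hm) l
    · intro l hl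
      have H' := H.op
      exact left_lit (by omega) (fin n (FIC.op β) (H'.bt (hL _ H'.toHy) h') H'.hm) l hl

/-- **necessity for every period** -/
theorem necB (hL : ∀ (n : ℕ) (β : FIC), Hy n β → Loc2 n β) {n : ℕ} {β : FIC} (hn : 1 ≤ n)
    (hper : RR β [0, 0] (List.replicate (n + 2) 0))
    (hncr : ∀ k : ℕ, 1 ≤ k → ¬ β.r (lx ^ (k + 1)) lx)
    (hbet : RR β [0, 1, 0] (List.replicate (n + 1) 0 ++ 1 :: List.replicate (n + 1) 0))
    (hm : ModF β) : LW n (RR β) ∨ LW n (RR (FIC.op β)) ∨ LB n (RR β) := by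
  classical
  have hex : ∃ m, 1 ≤ m ∧ RR β [0, 0] (List.replicate (m + 2) 0) := ⟨n, hn, hper⟩
  have h0 := Nat.find_spec hex
  have hmin : ∀ m, 1 ≤ m → RR β [0, 0] (List.replicate (m + 2) 0) → Nat.find hex ≤ m :=
    fun m h1 h2 => Nat.find_min' hex ⟨h1, h2⟩
  obtain ⟨k, hk⟩ := dvd_of h0.1 h0.2 hmin hncr hper
  have hk1 : 1 ≤ k := by
    rcases Nat.eq_zero_or_pos k with h | h
    · subst h; omega
    · exact h
  generalize Nat.find hex = n0 at *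
  subst hk
  have H : Ex n0 β := ⟨⟨h0.1, h0.2, bet_of h0.1 h0.2 hbet hk1, hm, hncr⟩,
    ex_of h0.1 h0.2 hmin hncr⟩
  rcases nec0 (hL n0) H k with h | h | h | h
  · exact Or.inl h
  · exact Or.inr (Or.inl h)
  · exact Or.inr (Or.inr h)
  · omega

end Pool.Agent.Helper70_MWR
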