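import Pool.Agent.Helper10_MWBN.SPN
import Pool.Agent.Helper13_MWBN.BSW
import Pool.Agent.Helper13_MWBN.JPN
import Pool.Agent.Helper13_MWHP.DBN
import Pool.Agent.Helper13_MWS.TLP
import Pool.Agent.Helper15_MWL.FLB
import Pool.Agent.Helper16_MWBN.NFN
import Pool.Agent.Helper19_MWHP.JPIN
import Pool.Agent.Helper19_MWL.TA2
import Pool.Agent.Helper21_MWHP.RSN
import Pool.Agent.Helper22_MWBN.CPF
import Pool.Agent.Helper22_MWL.ABS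
import Pool.Agent.Helper22_MWS.BFR
import Pool.Agent.Helper23_MWA.NDQ
import Pool.Agent.Helper26_MWS.LBB
import Pool.Agent.Helper27_MWBN.IDN
import Pool.Agent.Helper27_MWHP.ALG
import Pool.Agent.Helper27_MWS.GLD
import Pool.Agent.Helper2_MWBN.ELN
import Pool.Agent.Helper2_MWHP.D2N
import Pool.Agent.Helper30_MWBN.B2N
import Pool.Agent.Helper30_MWL.NDF
import Pool.Agent.Helper30_MWS.BFX
import Pool.Agent.Helper31_MVO.COM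
import Pool.Agent.Helper32_MWBN.SHN
import Pool.Agent.Helper34_MWBN.FEN
import Pool.Agent.Helper34_MWL.LAW
import Pool.Agent.Helper36_MWBN.XCN
import Pool.Agent.Helper36_MWHP.MASN
import Pool.Agent.Helper37_MWS.CHK
import Pool.Agent.Helper38_MVO.REN
import Pool.Agent.Helper39_MWA.BLQ
import Pool.Agent.Helper39_MWHP.SHN
import Pool.Agent.Helper3_MWBN.SWN
import Pool.Agent.Helper3_MWHP.TLMN
import Pool.Agent.Helper3_MWL.JPR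
import Pool.Agent.Helper42_MWS.EWL
import Pool.Agent.Helper43_MWBN.TCB
import Pool.Agent.Helper43_MWHP.DGC
import Pool.Agent.Helper45_MWA.CHQ
import Pool.Agent.Helper45_MWL.RMV
import Pool.Agent.Helper46_MWBN.TWN
import Pool.Agent.Helper48_MWHPA.STN
import Pool.Agent.Helper49_MWA.DGA
import Pool.Agent.Helper4_MWBN.EDN
import Pool.Agent.Helper51_MWL.DMX
import Pool.Agent.Helper52_MWL.TAB
import Pool.Agent.Helper53_MWA.MUX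
import Pool.Agent.Helper54_MWL.HVP
import Pool.Agent.Helper5_MVO.ONE
import Pool.Agent.Helper60_MWBN.W1N
import Pool.Agent.Helper60_MWHP.SATN
import Pool.Agent.Helper62_MWS.EWX
import Pool.Agent.Helper64_MWA.MUY
import Pool.Agent.Helper64_MWHP.ALA
import Pool.Agent.Helper67_MWS.XCW
import Pool.Agent.Helper69_MWL.JFC
import Pool.Agent.Helper74_MWBN.DBN
import Pool.Agent.Helper75_MWHP.DGQ
import Pool.Agent.Helper75_MWHP.NSN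
import Pool.Agent.Helper75_MWL.TA1
import Pool.Agent.Helper76_MWBN.DSN
import Pool.Agent.Helper77_MWHP.INT
import Pool.Agent.Helper77_MWL.TRN
import Pool.Agent.Helper7_MWBN.EWN
import Pool.Agent.Helper7_MWBN.XBN
import Pool.Agent.Helper7_MWHP.RPN
import Pool.Agent.Helper7_MWL.KEY
import Pool.Agent.Helper81_MWHP.MJN
import Pool.Agent.Helper81_MWHP.MON
import Pool.Agent.Helper82_MWS.BLR
import Pool.Agent.Helper85_MWA.CMN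
import Pool.Agent.Helper85_MWA.HAP
import Pool.Agent.Helper85_MWA.NRQ
import Pool.Agent.Helper88_MWL.PRM
import Pool.Agent.Helper8_MWBN.TEN
import Pool.Agent.Helper8_MWHP.LRNN
import Pool.Agent.Helper90_MWL.CLO
import Pool.Agent.Helper92_MWHP.FRN
import Pool.Agent.Helper92_MWS.XCB
import Pool.Agent.Helper97_MWL.ARR
import Pool.Agent.Helper97_MWS.IDX

/-!
# Composition of the rows of blocks MWBN, MWHP, MWA, MWS, MWL, MVO (helper70)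
-/

namespace Pool.Agent.Helper70_MWR.CompS

theorem mws_blr : Pool.Agent.MWS.BlrStmt :=
  Pool.Agent.MWS.H82.blr

theorem mws_idx : Pool.Agent.MWS.IdxStmt :=
  Pool.Agent.MWS.H97.idx

theorem mws_ewx : Pool.Agent.MWS.EwxStmt :=
  Pool.Agent.MWS.H62.ewx mws_idx

theorem mws_ewl : Pool.Agent.MWS.EwlStmt :=
  Pool.Agent.MWS.H42.ewl mws_idx mws_ewx

theorem mws_xcw : Pool.Agent.MWS.XcwStmt :=
  Pool.Agent.MWS.H67.xcw mws_blr mws_idx mws_ewl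

theorem mws_gld : Pool.Agent.MWS.GldStmt :=
  Pool.Agent.MWS.H27.gld

theorem mwa_mux : Pool.Agent.MWA.MuxStmt :=
  Pool.Agent.MWA.H53.mux

theorem mvo_com : Pool.Agent.MVO.ComStmt :=
  Pool.Agent.MVO.H31.com

theorem mwa_cmn : Pool.Agent.MWA.CmnStmt :=
  Pool.Agent.MWA.H85.cmn mvo_com

theorem mwa_od1 : Pool.Agent.MWA.Od1Stmt :=
  Pool.Agent.MWA.H49.od1

theorem mwa_dga : Pool.Agent.MWA.DgaStmt :=
  Pool.Agent.MWA.H49.dga mwa_cmn mwa_od1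

theorem mwl_trn : Pool.Agent.MWL.TrnStmt :=
  Pool.Agent.MWL.H77.trn

theorem mwa_hap : Pool.Agent.MWA.HapStmt :=
  Pool.Agent.MWA.H85.hap mwl_trn

theorem mwa_muy : Pool.Agent.MWA.MuyStmt :=
  Pool.Agent.MWA.H64.muy mwa_mux

theorem mwhp_dgc : Pool.Agent.MWHP.DgcStmt :=
  Pool.Agent.MWHP.H43.dgc mwa_hap mwa_cmn mwa_mux mwa_muy

theorem mwhp_dgq : Pool.Agent.MWHP.DgqStmt :=
  Pool.Agent.MWHP.H75.dgq mwa_mux mwa_dga mwhp_dgc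

theorem mvo_ren : Pool.Agent.MVO.RenStmt :=
  Pool.Agent.MVO.H38.ren

theorem mwa_nrq : Pool.Agent.MWA.NrqStmt :=
  Pool.Agent.MWA.H85.nrq

theorem mwa_blq : Pool.Agent.MWA.BlqStmt :=
  Pool.Agent.MWA.H39.blq mvo_ren mwa_nrq

theorem mws_tlp : Pool.Agent.MWS.TlpStmt :=
  Pool.Agent.MWS.H13.tlp

theorem mvo_one : Pool.Agent.MVO.OneStmt :=
  Pool.Agent.MVO.H5.one

theorem mwl_hvp : Pool.Agent.MWL.HvpStmt :=
  Pool.Agent.MWL.H54.hvp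

theorem mwl_abs : Pool.Agent.MWL.AbsStmt :=
  Pool.Agent.MWL.H22.abs mwl_trn mwl_hvp

theorem mwl_key : Pool.Agent.MWL.KeyStmt :=
  Pool.Agent.MWL.H7.key mwl_trn mwl_hvp mwl_abs

theorem mwl_ndf : Pool.Agent.MWL.NdfStmt :=
  Pool.Agent.MWL.H30.ndf

theorem mwa_ndq : Pool.Agent.MWA.NdqStmt :=
  Pool.Agent.MWA.H23.ndq mwl_ndf

theorem mwhp_lrnn : Pool.Agent.MWHP.LrnnStmt :=
  Pool.Agent.MWHP.H8.lrnn

theorem mws_chk : Pool.Agent.MWS.ChkStmt :=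
  Pool.Agent.MWS.H37.chk

theorem mwhp_int : Pool.Agent.MWHP.IntStmt :=
  Pool.Agent.MWHP.H77.int

theorem mwhp_rpn : Pool.Agent.MWHP.RpnStmt :=
  Pool.Agent.MWHP.H7.rpn mwhp_int

theorem mwhp_dbn : Pool.Agent.MWHP.DbnStmt :=
  Pool.Agent.MWHP.H13.dbn mws_blr mwhp_rpn

theorem mwhp_satn : Pool.Agent.MWHP.SatnStmt :=
  Pool.Agent.MWHP.H60.satn mwl_trn mwl_abs mwhp_lrnn mws_chk mwhp_rpn mwhp_dbn

theorem mwhp_stn : Pool.Agent.MWHP.StnStmt :=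
  Pool.Agent.MWHP.H48T.sta mvo_one mwl_trn mwhp_satn

theorem mwhp_alg : Pool.Agent.MWHP.AlgStmt :=
  Pool.Agent.MWHP.H27.alg mws_chk mwhp_dbn

theorem mwhp_ala : Pool.Agent.MWHP.AlaStmt :=
  Pool.Agent.MWHP.H64.ala mwhp_alg

theorem mwhp_shn : Pool.Agent.MWHP.ShnStmt :=
  Pool.Agent.MWHP.H39.shn mvo_one mwl_trn mwl_key mwa_ndq mwhp_lrnn mwhp_stn mwhp_ala

theorem mwhp_d2n : Pool.Agent.MWHP.D2nStmt :=
  Pool.Agent.MWHP.H2.d2n mvo_one mwhp_shn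

theorem mwl_dmx : Pool.Agent.MWL.DmxStmt :=
  Pool.Agent.MWL.H51.dmx mwl_hvp

theorem mwl_arr : Pool.Agent.MWL.ArrStmt :=
  Pool.Agent.MWL.H97.arr mwl_trn mwl_hvp mwl_abs

theorem mwl_ta1 : Pool.Agent.MWL.Ta1Stmt :=
  Pool.Agent.MWL.H75.ta1 mwl_trn mwl_hvp mwl_abs mwl_arr

theorem mwl_ta2 : Pool.Agent.MWL.Ta2Stmt :=
  Pool.Agent.MWL.H19.ta2 mwl_trn mwl_hvp mwl_abs mwl_arr mwl_ta1

theorem mwl_tab : Pool.Agent.MWL.TabStmt :=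
  Pool.Agent.MWL.H52.tab mwl_hvp mwl_ta1 mwl_ta2

theorem mwl_rmv : Pool.Agent.MWL.RmvStmt :=
  Pool.Agent.MWL.H45.rmv mwl_hvp

theorem mwl_clo : Pool.Agent.MWL.CloStmt :=
  Pool.Agent.MWL.H90.clo mwl_trn mwl_hvp mwl_abs mwl_rmv

theorem mwl_flb : Pool.Agent.MWL.FlbStmt :=
  Pool.Agent.MWL.H15.flb mwl_key mwl_trn mwl_tab mwl_rmv mwl_clo

theorem mwl_prm : Pool.Agent.MWL.PrmStmt :=
  Pool.Agent.MWL.H88.prm mwl_hvp mwl_arr mwl_ta1 mwl_ta2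

theorem mwl_jpr : Pool.Agent.MWL.JprStmt :=
  Pool.Agent.MWL.H3.jpr mwl_trn mwl_hvp mwl_abs mwl_key mwl_prm

theorem mwl_jfc : Pool.Agent.MWL.JfcStmt :=
  Pool.Agent.MWL.H69.jfc mwl_rmv

theorem mwl_law : Pool.Agent.MWL.LawStmt :=
  Pool.Agent.MWL.H34.law mwl_dmx mwl_flb mwl_jpr mwl_jfc

theorem mwa_chq : Pool.Agent.MWA.ChqStmt :=
  Pool.Agent.MWA.H45.chq mwa_nrq

theorem mwhp_mon : Pool.Agent.MWHP.MonStmt :=
  Pool.Agent.MWHP.H81.mon mvo_one mwl_law mwa_chq mwa_ndq mwhp_lrnn mwhp_shn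

theorem mwhp_nsn : Pool.Agent.MWHP.NsnStmt :=
  Pool.Agent.MWHP.H75.nsn

theorem mwhp_mjn : Pool.Agent.MWHP.MjnStmt :=
  Pool.Agent.MWHP.H81.mjn mwhp_nsn

theorem mwhp_tlmn : Pool.Agent.MWHP.TlmnStmt :=
  Pool.Agent.MWHP.H3.tlmn mws_gld mwhp_dgq mwa_blq mws_tlp mwhp_d2n mwhp_mon mwhp_mjn

theorem mws_bfr : Pool.Agent.MWS.BfrStmt :=
  Pool.Agent.MWS.H22.bfr

theorem mws_bfx : Pool.Agent.MWS.BfxStmt :=
  Pool.Agent.MWS.H30.bfx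

theorem mws_lbb : Pool.Agent.MWS.LbbStmt :=
  Pool.Agent.MWS.H26.lbb mws_bfx

theorem mwhp_frn : Pool.Agent.MWHP.FrnStmt :=
  Pool.Agent.MWHP.H92.frn mwhp_int

theorem mwhp_rsn : Pool.Agent.MWHP.RsnStmt :=
  Pool.Agent.MWHP.H21.rsn mwhp_rpn

theorem mwhp_masn : Pool.Agent.MWHP.MasnStmt :=
  Pool.Agent.MWHP.H36M.masn mws_bfx mws_lbb mwhp_frn mwhp_rsn

theorem mwbn_idn : Pool.Agent.MWBN.IdnStmt :=
  Pool.Agent.MWBN.H27.idn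

theorem mwbn_dbn : Pool.Agent.MWBN.DbnStmt :=
  Pool.Agent.MWBN.H74.dbn mws_blr mwbn_idn

theorem mwbn_nfn : Pool.Agent.MWBN.NfnStmt :=
  Pool.Agent.MWBN.H16.nfn mwhp_masn mwbn_dbn

theorem mwbn_twn : Pool.Agent.MWBN.TwnStmt :=
  Pool.Agent.MWBN.H46.twn mwbn_nfn

theorem mwbn_swn : Pool.Agent.MWBN.SwnStmt :=
  Pool.Agent.MWBN.H3.swn mws_bfr mwbn_nfn mwbn_twn

theorem mwbn_ten : Pool.Agent.MWBN.TenStmt :=
  Pool.Agent.MWBN.H8.ten mwbn_nfn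

theorem mwhp_jpin : Pool.Agent.MWHP.JpinStmt :=
  Pool.Agent.MWHP.H19.jpin mwa_chq

theorem mwbn_fen : Pool.Agent.MWBN.FenStmt :=
  Pool.Agent.MWBN.H34.fen mwbn_nfn

theorem mwbn_spn : Pool.Agent.MWBN.SpnStmt :=
  Pool.Agent.MWBN.H10.spn mwl_key mwl_arr mwl_ta1 mwl_ta2

theorem mwbn_tcb : Pool.Agent.MWBN.TcbStmt :=
  Pool.Agent.MWBN.H43.tcb mws_blr mws_chk mwbn_idn

theorem mwbn_jpn : Pool.Agent.MWBN.JpnStmt :=
  Pool.Agent.MWBN.H13.jpn mvo_one mwa_ndq mwhp_lrnn mwhp_jpin mwbn_nfn mwbn_ten mwbn_twn mwbn_fen mwbn_spn mwbn_tcb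

theorem mwbn_edn : Pool.Agent.MWBN.EdnStmt :=
  Pool.Agent.MWBN.H4.edn mwbn_nfn mwbn_ten mwbn_twn mwbn_jpn

theorem mwbn_dsn : Pool.Agent.MWBN.DsnStmt :=
  Pool.Agent.MWBN.H76.dsn mwhp_tlmn mwbn_swn mwbn_edn

theorem mwbn_ewn : Pool.Agent.MWBN.EwnStmt :=
  Pool.Agent.MWBN.H7.ewn mwbn_idn

theorem mwbn_eln : Pool.Agent.MWBN.ElnStmt :=
  Pool.Agent.MWBN.H2.eln mwbn_idn mwbn_ewn

theorem mwbn_shn : Pool.Agent.MWBN.ShnStmt :=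
  Pool.Agent.MWBN.H32.shn mwbn_idn mwbn_eln

theorem mwbn_cpf : Pool.Agent.MWBN.CpfStmt :=
  Pool.Agent.MWBN.H22.cpf

theorem mwbn_bsw : Pool.Agent.MWBN.BswStmt :=
  Pool.Agent.MWBN.H13.bsw mwbn_idn mwbn_cpf mwbn_shn

theorem mwbn_xcn : Pool.Agent.MWBN.XcnStmt :=
  Pool.Agent.MWBN.H36.xcn mws_blr mws_xcw mwbn_idn mwbn_eln mwbn_shn mwbn_bsw

theorem mwbn_w1n : Pool.Agent.MWBN.W1nStmt :=
  Pool.Agent.MWBN.H60.w1n mws_xcw mwbn_dsn mwbn_xcn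

theorem mws_xcb : Pool.Agent.MWS.XcbStmt :=
  Pool.Agent.MWS.H92.xcb mws_blr mws_idx

theorem mwbn_xbn : Pool.Agent.MWBN.XbnStmt :=
  Pool.Agent.MWBN.H7.xbn mws_blr mwbn_idn mwbn_cpf

theorem mwbn_b2n : Pool.Agent.MWBN.B2nStmt :=
  Pool.Agent.MWBN.H30.b2n mws_xcb mwbn_dsn mwbn_xbn

end Pool.Agent.Helper70_MWR.CompS
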