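import Pool.Agent.Helper70_MWR.Lit

/-!
# The exact period (helper70)
-/

set_option autoImplicit false

namespace Pool.Agent.Helper70_MWR

open Pool.Agent.Helper14_MV Pool.Agent.Helper2_MV Pool.Agent.Helper44_MVT
open Pool.Agent.MWPN.C (rep_mod rtr)

variable {β : FIC}

/-- the powers of a letter for the least period `n` -/
theorem ex_of {n : ℕ} (hn : 1 ≤ n) (hper : RR β [0, 0] (List.replicate (n + 2) 0))
    (hmin : ∀ m, 1 ≤ m → RR β [0, 0] (List.replicate (m + 2) 0) → n ≤ m)
    (hncr : ∀ k : ℕ, 1 ≤ k → ¬ β.r (lx ^ (k + 1)) lx) :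
    ∀ p q : ℕ, RR β (List.replicate p 0) (List.replicate q 0) →
      p = q ∨ (2 ≤ p ∧ 2 ≤ q ∧ p ≡ q [MOD n]) := by
  have main : ∀ p q : ℕ, 2 ≤ p → p ≤ q → RR β (List.replicate p 0) (List.replicate q 0) →
      p ≡ q [MOD n] := by
    intro p q hp hpq h
    obtain ⟨d, rfl⟩ := Nat.exists_eq_add_of_le hpq
    have h1 := h.append (RR.refl (β := β) (List.replicate (p * (n - 1) + 2) 0))
    rw [List.replicate_append_replicate, List.replicate_append_replicate] at h1
    have e1 : p + (p * (n - 1) + 2) = 2 + n * p := by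
      obtain ⟨j, rfl⟩ := Nat.exists_eq_add_of_le hn
      have : 1 + j - 1 = j := by omega
      rw [this]
      ring
    have e2 : p + d + (p * (n - 1) + 2) = 2 + d + n * p := by omega
    rw [e1, e2] at h1
    have c1 : 2 + n * p ≡ 2 [MOD n] := by
      unfold Nat.ModEq
      rw [Nat.add_mul_mod_self_left]
    have c2 : 2 + d + n * p ≡ 2 + d [MOD n] := by
      unfold Nat.ModEq
      rw [Nat.add_mul_mod_self_left]
    have h2 : RR β (List.replicate 2 0) (List.replicate (2 + d) 0) :=
      rtr (rtr (rep_mod hper 0 (by omega) (by omega) c1.symm) h1)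
        (rep_mod hper 0 (by omega) (by omega) c2)
    have c3 : 2 + d ≡ d % n + 2 [MOD n] := by
      rw [Nat.add_comm]
      exact Nat.ModEq.add_right 2 (Nat.mod_modEq d n).symm
    have h3 : RR β (List.replicate 2 0) (List.replicate (d % n + 2) 0) :=
      rtr h2 (rep_mod hper 0 (by omega) (by omega) c3)
    have hr : d % n = 0 := by
      by_contra hr
      have h4 := hmin (d % n) (by omega) h3
      have := Nat.mod_lt d hn
      omega
    obtain ⟨k, rfl⟩ := Nat.dvd_of_mod_eq_zero hr
    unfold Nat.ModEq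
    rw [Nat.add_mul_mod_self_left]
  intro p q h
  by_cases hp : 2 ≤ p
  · have hq := ncr_rep hncr h hp
    right
    refine ⟨hp, hq, ?_⟩
    rcases Nat.le_total p q with hl | hl
    · exact main p q hp hl h
    · exact (main q p hq hl h.symm).symm
  · have hq : ¬ 2 ≤ q := fun hq => hp (ncr_rep hncr h.symm hq)
    left
    by_contra hne
    have h1 : RR β (List.replicate 1 0) (List.replicate 0 0) := by
      have hc : (p = 0 ∧ q = 1) ∨ (p = 1 ∧ q = 0) := by omega
      rcases hc with ⟨rfl, rfl⟩ | ⟨rfl, rfl⟩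
      · exact h.symm
      · exact h
    have h2 := h1.append (RR.refl (β := β) [0])
    exact hncr 1 (le_refl 1) (by
      have e : (lx ^ (1 + 1) : Word) = FreeMonoid.ofList [0, 0] := by
        rw [of_pow]; rfl
      rw [e]
      exact h2)

/-- the least period divides every period -/
theorem dvd_of {n m : ℕ} (hn : 1 ≤ n) (hper : RR β [0, 0] (List.replicate (n + 2) 0))
    (hmin : ∀ m, 1 ≤ m → RR β [0, 0] (List.replicate (m + 2) 0) → n ≤ m)
    (hncr : ∀ k : ℕ, 1 ≤ k → ¬ β.r (lx ^ (k + 1)) lx)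
    (h : RR β [0, 0] (List.replicate (m + 2) 0)) : n ∣ m := by
  rcases ex_of hn hper hmin hncr 2 (m + 2) h with h1 | h1
  · have : m = 0 := by omega
    subst this
    exact Nat.dvd_zero n
  · have h2 := (Nat.modEq_iff_dvd' (by omega)).1 h1.2.2
    have e : m + 2 - 2 = m := by omega
    rwa [e] at h2

/-- `xyx ≈ x^(n+1) y x^(n+1)` for the least period -/
theorem bet_of {n k : ℕ} (hn : 1 ≤ n) (hper : RR β [0, 0] (List.replicate (n + 2) 0))
    (hbet : RR β [0, 1, 0] (List.replicate (n * k + 1) 0 ++ 1 :: List.replicate (n * k + 1) 0))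
    (hk : 1 ≤ k) :
    RR β [0, 1, 0] (List.replicate (n + 1) 0 ++ 1 :: List.replicate (n + 1) 0) := by
  have hnk : 1 ≤ n * k := Nat.mul_pos hn hk
  have c : n * k + 1 ≡ n + 1 [MOD n] := by
    unfold Nat.ModEq
    rw [Nat.add_comm, Nat.add_mul_mod_self_left, Nat.add_comm n 1, Nat.add_mod_right]
  have h1 := rep_mod hper 0 (by omega) (by omega) c
  exact rtr hbet (h1.append ((RR.refl [1]).append h1))

end Pool.Agent.Helper70_MWR
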