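import Pool.Agent.Helper70_MWR.Alg
import Pool.Agent.Helper44_MVT.Mon
import Pool.Agent.Helper4_MV.Iso

/-!
# The beta world for period `n`: from the congruence to the relatively free monoid (helper70)
-/

set_option autoImplicit false

namespace Pool.Agent.Helper70_MWR

open Pool.Agent.Helper14_MV Pool.Agent.Helper2_MV Pool.Agent.Helper44_MVT

/-- the hypotheses on the fully invariant congruence -/
structure Hy (n : ℕ) (β : FIC) : Prop where
  pos : 1 ≤ n
  per : RR β [0, 0] (List.replicate (n + 2) 0)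
  bet : RR β [0, 1, 0] (List.replicate (n + 1) 0 ++ 1 :: List.replicate (n + 1) 0)
  hm : ModF β
  ncr : ∀ k : ℕ, 1 ≤ k → ¬ β.r (lx ^ (k + 1)) lx

theorem ev_rep {M : Type*} [Monoid M] (g : ℕ → M) (k c : ℕ) :
    ev g (List.replicate k c) = g c ^ k := by
  simp [ev]

section crk

variable {M : Type*} [Monoid M] {n : ℕ}

theorem powXY {X Y : M} (h1 : X * X = Y * Y) (h2 : X * Y = Y * Y) {k : ℕ} (hk : 2 ≤ k) :
    X ^ k = Y ^ k := by
  obtain ⟨j, rfl⟩ := Nat.exists_eq_add_of_le hk
  clear hk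
  induction j with
  | zero => rw [Nat.add_zero, pow_two, pow_two, h1]
  | succ j ih =>
    have e : 2 + (j + 1) = (2 + j) + 1 := by ring
    have e2 : 2 + j = (1 + j) + 1 := by ring
    have h3 : X * Y ^ (2 + j) = Y * Y ^ (2 + j) := by
      rw [e2, pow_succ' Y, ← mul_assoc, ← mul_assoc, h2]
    rw [e, pow_succ' X, ih, h3, ← pow_succ']

theorem crk (hn : 1 ≤ n) (hper : ∀ a : M, a ^ 2 = a ^ (n + 2))
    (hbet : ∀ a b : M, a * b * a = a ^ (n + 1) * b * a ^ (n + 1)) (p a q : M) {k : ℕ} (hk : 2 ≤ k) :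
    (p * a ^ (n + 1) * q) ^ k = (p * a * q) ^ k := by
  have e0 : a ^ n * a ^ (n + 1) = a ^ (n + 1) := by
    obtain ⟨j, rfl⟩ := Nat.exists_eq_add_of_le hn
    rw [← pow_add]
    have e : 1 + j + (1 + j + 1) = (1 + j + 2) + j := by ring
    have e' : 1 + j + 1 = 2 + j := by ring
    rw [e, e', pow_add, ← hper, ← pow_add]
  have h1 : ∀ c : M, a * c * a ^ (n + 1) = a ^ (n + 1) * c * a ^ (n + 1) := by
    intro c
    calc a * c * a ^ (n + 1) = a * (c * a ^ n) * a := by rw [pow_succ]; simp only [mul_assoc]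
      _ = a ^ (n + 1) * (c * a ^ n) * a ^ (n + 1) := hbet _ _
      _ = a ^ (n + 1) * c * (a ^ n * a ^ (n + 1)) := by simp only [mul_assoc]
      _ = a ^ (n + 1) * c * a ^ (n + 1) := by rw [e0]
  have hX : (p * a * q) * (p * a * q) = (p * a ^ (n + 1) * q) * (p * a ^ (n + 1) * q) := by
    calc (p * a * q) * (p * a * q) = p * (a * (q * p) * a) * q := by simp only [mul_assoc]
      _ = p * (a ^ (n + 1) * (q * p) * a ^ (n + 1)) * q := by rw [hbet]
      _ = _ := by simp only [mul_assoc]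
  have hX' : (p * a * q) * (p * a ^ (n + 1) * q) =
      (p * a ^ (n + 1) * q) * (p * a ^ (n + 1) * q) := by
    calc (p * a * q) * (p * a ^ (n + 1) * q) = p * (a * (q * p) * a ^ (n + 1)) * q := by
          simp only [mul_assoc]
      _ = p * (a ^ (n + 1) * (q * p) * a ^ (n + 1)) * q := by rw [h1]
      _ = _ := by simp only [mul_assoc]
  exact (powXY hX hX' hk).symm

end crk

/-- words are compared by their powers -/
def gk (β : FIC) : FIC where
  r := fun u v => ∀ (φ : Word →* Word) (m q : Word) (k : ℕ), 2 ≤ k →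
    β.r ((m * φ u * q) ^ k) ((m * φ v * q) ^ k)
  refl := fun _ _ _ _ _ _ => β.refl _
  symm := fun h φ m q k hk => β.symm (h φ m q k hk)
  trans := fun h h' φ m q k hk => β.trans (h φ m q k hk) (h' φ m q k hk)
  mul := by
    intro a b c d h h' φ m q k hk
    rw [map_mul, map_mul]
    have h1 := h φ m (φ c * q) k hk
    have h2 := h' φ (m * φ b) q k hk
    simp only [mul_assoc] at h1 h2 ⊢
    exact β.trans h1 h2
  sub := fun ψ _ _ h φ m q k hk => h (φ.comp ψ) m q k hk

theorem pow_r {β : FIC} {u v : Word} (h : β.r u v) (k : ℕ) : β.r (u ^ k) (v ^ k) := by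
  induction k with
  | zero => simpa using β.refl (1 : Word)
  | succ k ih => rw [pow_succ, pow_succ]; exact β.mul ih h

theorem le_gk (β : FIC) : β ≤ gk β := by
  intro u v h φ m q k _
  exact pow_r (β.mul (β.mul (β.refl m) (β.sub φ h)) (β.refl q)) k

variable {n : ℕ} {β : FIC}

theorem Hy.per' (H : Hy n β) (a : MM β) : a ^ 2 = a ^ (n + 2) := by
  have := ev_eq H.per (fun _ => a)
  rw [ev_rep] at this
  rw [← this, pow_two]
  simp [ev]

theorem Hy.bet' (H : Hy n β) (a b : MM β) : a * b * a = a ^ (n + 1) * b * a ^ (n + 1) := by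
  have := ev_eq H.bet (fun c => if c = 0 then a else b)
  rw [ev_append, ev_cons, ev_rep] at this
  simpa [ev, mul_assoc] using this

theorem gk_cr (H : Hy n β) : (gk β).r (lx ^ (n + 1)) lx := by
  intro φ m q k hk
  apply (Con.eq β.con).1
  have h := crk H.pos H.per' H.bet' (β.con.mk' m) (β.con.mk' (φ lx)) (β.con.mk' q) hk
  rw [← map_pow, ← map_pow φ, ← map_mul, ← map_mul, ← map_mul, ← map_mul, ← map_pow, ← map_pow] at h
  exact h

theorem Hy.cm (H : Hy n β) (k : ℕ) (hk : 2 ≤ k) (p a b q : MM β) :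
    (p * a * b * q) ^ k = (p * b * a * q) ^ k := by
  have h := Pool.Agent.Helper14_MV.B1 β H.hm H.ncr (gk β) (le_gk β) n H.pos (gk_cr H)
  obtain ⟨p, rfl⟩ := Con.mk'_surjective p
  obtain ⟨a, rfl⟩ := Con.mk'_surjective a
  obtain ⟨b, rfl⟩ := Con.mk'_surjective b
  obtain ⟨q, rfl⟩ := Con.mk'_surjective q
  have h1 := h (FreeMonoid.lift (fun c => if c = 0 then a else b)) p q k hk
  have e0 : (FreeMonoid.lift (fun c => if c = 0 then a else b) : Word →* Word) (lx * ly) = a * b := by
    rw [map_mul]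
    simp [lx, ly, FreeMonoid.lift_eval_of]
  have e1 : (FreeMonoid.lift (fun c => if c = 0 then a else b) : Word →* Word) (ly * lx) = b * a := by
    rw [map_mul]
    simp [lx, ly, FreeMonoid.lift_eval_of]
  rw [e0, e1] at h1
  have h2 : β.con.mk' ((p * (a * b) * q) ^ k) = β.con.mk' ((p * (b * a) * q) ^ k) :=
    (Con.eq β.con).2 h1
  simpa only [map_pow, map_mul, mul_assoc] using h2

/-- the relatively free monoid is in the world -/
theorem Hy.wd (H : Hy n β) : Wd n (MM β) := ⟨⟨H.pos, H.per', H.cm⟩, H.bet'⟩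

end Pool.Agent.Helper70_MWR
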