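import Pool.Agent.Helper70_MWR.Lift
import Pool.Agent.Helper13_MWF.BND

/-!
# The gamma world for period `n`: zero facts and the lifted congruence (helper70)

`x² ≈ x^(n+2)`, `xyx ≈ xyx^(n+1)`, modular, not completely regular.
-/

set_option autoImplicit false

namespace Pool.Agent.Helper70_MWR

open Pool.Agent.Helper14_MV Pool.Agent.Helper2_MV Pool.Agent.Helper44_MVT

/-! ### left zero pairs -/

section band

variable {β : FIC}

theorem comm_band (h : ModF β) (hncr : ∀ k : ℕ, 1 ≤ k → ¬ β.r (lx ^ (k + 1)) lx)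
    (S : Submonoid β.con.Quotient) (hS : ∀ s ∈ S, s * s = s) {g k : β.con.Quotient} (hg : g ∈ S)
    (hk : k ∈ S) : g * k = k * g := by
  have hle : β ≤ MWF.H13.thS S := by
    intro u v huv φ _
    exact quot_sat β huv φ
  have h1 : (MWF.H13.thS S).r (lx ^ (1 + 1)) lx := by
    intro φ hφ
    rw [pow_succ, pow_one, map_mul]
    exact hS _ (hφ 0)
  have h2 := Helper14_MV.B1 β h hncr (MWF.H13.thS S) hle 1 le_rfl h1
    (FreeMonoid.lift (fun i => if i = 0 then g else k)) (fun i => by
      rw [FreeMonoid.lift_eval_of]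
      split
      · exact hg
      · exact hk)
  rw [map_mul, map_mul] at h2
  exact h2

/-- a left zero pair of idempotents is trivial -/
theorem lz_pair (h : ModF β) (hncr : ∀ k : ℕ, 1 ≤ k → ¬ β.r (lx ^ (k + 1)) lx)
    {g k : β.con.Quotient} (hg : g * g = g) (hk : k * k = k) (h1 : g * k = g) (h2 : k * g = k) :
    g = k := by
  let S : Submonoid β.con.Quotient :=
    { carrier := {1, g, k}
      one_mem' := Or.inl rfl
      mul_mem' := by
        intro a b ha hb
        rcases ha with ha | ha | ha <;> rcases hb with hb | hb | hb <;> subst ha <;> subst hb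
        · exact Or.inl (one_mul _)
        · exact Or.inr (Or.inl (one_mul _))
        · exact Or.inr (Or.inr (one_mul _))
        · exact Or.inr (Or.inl (mul_one _))
        · exact Or.inr (Or.inl hg)
        · exact Or.inr (Or.inl h1)
        · exact Or.inr (Or.inr (mul_one _))
        · exact Or.inr (Or.inr h2)
        · exact Or.inr (Or.inr hk) }
  have h3 : g * k = k * g := by
    refine comm_band h hncr S ?_ (Or.inr (Or.inl rfl)) (Or.inr (Or.inr rfl))
    intro s hs
    rcases hs with hs | hs | hs <;> subst hs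
    · exact one_mul _
    · exact hg
    · exact hk
  rw [h1, h2] at h3
  exact h3

end band

/-- the hypotheses on the fully invariant congruence, gamma world -/
structure Hg (n : ℕ) (β : FIC) : Prop where
  pos : 1 ≤ n
  per : RR β [0, 0] (List.replicate (n + 2) 0)
  gam : RR β [0, 1, 0] (0 :: 1 :: List.replicate (n + 1) 0)
  hm : ModF β
  ncr : ∀ k : ℕ, 1 ≤ k → ¬ β.r (lx ^ (k + 1)) lx

variable {n : ℕ} {β : FIC}

theorem Hg.per' (H : Hg n β) (a : MM β) : a ^ 2 = a ^ (n + 2) := by
  have := ev_eq H.per (fun _ => a)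
  rw [ev_rep] at this
  rw [← this, pow_two]
  simp [ev]

theorem Hg.gam' (H : Hg n β) (a b : MM β) : a * b * a = a * b * a ^ (n + 1) := by
  have := ev_eq H.gam (fun c => if c = 0 then a else b)
  simp only [ev_cons, ev_rep, ev_nil] at this
  simpa [mul_assoc] using this

theorem Hg.perk (H : Hg n β) (a : MM β) {i : ℕ} (hi : 2 ≤ i) (k : ℕ) : a ^ (i + n * k) = a ^ i := by
  induction k with
  | zero => simp
  | succ k ih =>
    have e : i + n * (k + 1) = (n + 2) + (i - 2 + n * k) := by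
      have : n * (k + 1) = n * k + n := by ring
      omega
    rw [e, pow_add, ← H.per', ← pow_add]
    have e2 : 2 + (i - 2 + n * k) = i + n * k := by omega
    rw [e2, ih]

/-- equal powers -/
theorem Hg.crk (H : Hg n β) (p a q : MM β) {k : ℕ} (hk : 2 ≤ k) :
    (p * a ^ (n + 1) * q) ^ k = (p * a * q) ^ k := by
  have hn := H.pos
  have hXX : (p * a * q) * (p * a * q) = (p * a * q) * (p * a ^ (n + 1) * q) := by
    calc (p * a * q) * (p * a * q) = p * (a * (q * p) * a) * q := by simp only [mul_assoc]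
      _ = p * (a * (q * p) * a ^ (n + 1)) * q := by rw [H.gam']
      _ = _ := by simp only [mul_assoc]
  have hYX : (p * a ^ (n + 1) * q) * (p * a * q) =
      (p * a ^ (n + 1) * q) * (p * a ^ (n + 1) * q) := by
    calc (p * a ^ (n + 1) * q) * (p * a * q) = p * a ^ n * (a * (q * p) * a) * q := by
          rw [pow_succ]; simp only [mul_assoc]
      _ = p * a ^ n * (a * (q * p) * a ^ (n + 1)) * q := by rw [H.gam']
      _ = (p * (a ^ n * a) * q) * (p * a ^ (n + 1) * q) := by simp only [mul_assoc]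
      _ = _ := by rw [← pow_succ]
  generalize p * a * q = X at hXX hYX ⊢
  generalize p * a ^ (n + 1) * q = Y at hXX hYX ⊢
  -- products of powers
  have h1 : ∀ i j : ℕ, X ^ (i + 1) * Y ^ j = X ^ (i + 1 + j) := by
    intro i j
    induction j with
    | zero => simp
    | succ j ih =>
      rw [pow_succ Y, ← mul_assoc, ih]
      have e : i + 1 + j = i + j + 1 := by ring
      have e' : i + 1 + (j + 1) = i + j + 1 + 1 := by ring
      rw [e, e', pow_succ X (i + j), mul_assoc, ← hXX, ← mul_assoc, ← pow_succ, ← pow_succ]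
  have h2 : ∀ i j : ℕ, Y ^ (i + 1) * X ^ j = Y ^ (i + 1 + j) := by
    intro i j
    induction j with
    | zero => simp
    | succ j ih =>
      rw [pow_succ X, ← mul_assoc, ih]
      have e : i + 1 + j = i + j + 1 := by ring
      have e' : i + 1 + (j + 1) = i + j + 1 + 1 := by ring
      rw [e, e', pow_succ Y (i + j), mul_assoc, hYX, ← mul_assoc, ← pow_succ, ← pow_succ]
  obtain ⟨d, hd⟩ : ∃ d, 2 * n = d + 1 := ⟨2 * n - 1, by omega⟩
  have pX : ∀ i, 2 ≤ i → X ^ (2 * n + i) = X ^ i := by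
    intro i hi
    have e : 2 * n + i = i + n * 2 := by ring
    rw [e, H.perk X hi]
  have pY : ∀ i, 2 ≤ i → Y ^ (2 * n + i) = Y ^ i := by
    intro i hi
    have e : 2 * n + i = i + n * 2 := by ring
    rw [e, H.perk Y hi]
  have he : X ^ (2 * n) = Y ^ (2 * n) := by
    apply lz_pair H.hm H.ncr
    · rw [← pow_add, pX _ (by omega)]
    · rw [← pow_add, pY _ (by omega)]
    · rw [hd, h1, ← hd, pX _ (by omega)]
    · rw [hd, h2, ← hd, pY _ (by omega)]
  calc Y ^ k = Y ^ (2 * n + k) := (pY k hk).symm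
    _ = Y ^ (2 * n) * Y ^ k := by rw [pow_add]
    _ = X ^ (2 * n) * Y ^ k := by rw [he]
    _ = X ^ (2 * n + k) := by rw [hd, h1]
    _ = X ^ k := pX k hk

theorem gk_cr_g (H : Hg n β) : (gk β).r (lx ^ (n + 1)) lx := by
  intro φ m q k hk
  apply (Con.eq β.con).1
  have h := H.crk (β.con.mk' m) (β.con.mk' (φ lx)) (β.con.mk' q) hk
  rw [← map_pow, ← map_pow φ, ← map_mul, ← map_mul, ← map_mul, ← map_mul, ← map_pow, ← map_pow] at h
  exact h

/-- from commutativity of `gk` -/
theorem cm_of (h : (gk β).r (lx * ly) (ly * lx)) (k : ℕ) (hk : 2 ≤ k) (p a b q : MM β) :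
    (p * a * b * q) ^ k = (p * b * a * q) ^ k := by
  obtain ⟨p, rfl⟩ := Con.mk'_surjective p
  obtain ⟨a, rfl⟩ := Con.mk'_surjective a
  obtain ⟨b, rfl⟩ := Con.mk'_surjective b
  obtain ⟨q, rfl⟩ := Con.mk'_surjective q
  have h1 := h (FreeMonoid.lift (fun c => if c = 0 then a else b)) p q k hk
  have e0 : (FreeMonoid.lift (fun c => if c = 0 then a else b) : Word →* Word) (lx * ly) = a * b := by
    rw [map_mul]
    simp [lx, ly, FreeMonoid.lift_eval_of]
  have e1 : (FreeMonoid.lift (fun c => if c = 0 then a else b) : Word →* Word) (ly * lx) = b * a := by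
    rw [map_mul]
    simp [lx, ly, FreeMonoid.lift_eval_of]
  rw [e0, e1] at h1
  have h2 : β.con.mk' ((p * (a * b) * q) ^ k) = β.con.mk' ((p * (b * a) * q) ^ k) :=
    (Con.eq β.con).2 h1
  simpa only [map_pow, map_mul, mul_assoc] using h2

/-- the relatively free monoid, gamma world -/
theorem Hg.wc (H : Hg n β) : Wc n (MM β) :=
  ⟨H.pos, H.per', cm_of (Pool.Agent.Helper14_MV.B1 β H.hm H.ncr (gk β) (le_gk β) n H.pos
    (gk_cr_g H))⟩

/-- the lifted congruence is in the gamma world for period one -/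
theorem al_gam (H : Hg n β) : RR (al n β) [0, 1, 0] [0, 1, 0, 0] := by
  intro φ m q
  have e1 : FreeMonoid.toList (m * φ (FreeMonoid.ofList [0, 1, 0]) * q) =
      FreeMonoid.toList m ++ (FreeMonoid.toList (φ lx) ++ FreeMonoid.toList (φ ly) ++
        FreeMonoid.toList (φ lx)) ++ FreeMonoid.toList q := by
    have : (FreeMonoid.ofList [0, 1, 0] : Word) = lx * ly * lx := rfl
    rw [this, map_mul φ, map_mul φ]; rfl
  have e2 : FreeMonoid.toList (m * φ (FreeMonoid.ofList [0, 1, 0, 0]) * q) =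
      FreeMonoid.toList m ++ (FreeMonoid.toList (φ lx) ++ FreeMonoid.toList (φ ly) ++
        FreeMonoid.toList (φ lx) ++ FreeMonoid.toList (φ lx)) ++ FreeMonoid.toList q := by
    have : (FreeMonoid.ofList [0, 1, 0, 0] : Word) = lx * ly * lx * lx := rfl
    rw [this, map_mul φ, map_mul φ, map_mul φ]; rfl
  rw [e1, e2]
  generalize FreeMonoid.toList m = m
  generalize FreeMonoid.toList q = q
  generalize FreeMonoid.toList (φ lx) = A
  generalize FreeMonoid.toList (φ ly) = B
  have hc : ∀ c, 2 ≤ (m ++ (A ++ B ++ A) ++ q).count c ↔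
      2 ≤ (m ++ (A ++ B ++ A ++ A) ++ q).count c := by
    intro c
    simp only [List.count_append]
    omega
  have hA : ∀ c ∈ A, 2 ≤ (m ++ (A ++ B ++ A) ++ q).count c := by
    intro c hc
    have := List.count_pos_iff.2 hc
    simp only [List.count_append]
    omega
  unfold En
  rw [← es_eq (n := n) hc, rr_iff, ev_flatMap, ev_flatMap]
  simp only [ev_append]
  have h1 := idp3 (idp H.wc (fun c => ev (cn β) (es n (m ++ (A ++ B ++ A) ++ q) c)) A
    (fun c hc => es_idem H.wc (hA c hc)))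
  generalize ev (fun c => ev (cn β) (es n (m ++ (A ++ B ++ A) ++ q) c)) A = a at h1 ⊢
  generalize ev (fun c => ev (cn β) (es n (m ++ (A ++ B ++ A) ++ q) c)) B = b
  have hn := H.pos
  have h2 : a * b * a = a * b * a * a := by
    rw [H.gam' a b, idpk h1 (by omega)]
    calc a * b * (a * a) = a * b * (a * a * a) := by rw [h1]
      _ = _ := by simp only [mul_assoc]
  rw [← h2]

/-- `x^a y^b = y^b x^a` for `a, b ≥ 2` if idempotents commute -/
theorem Wc.r0 {M : Type*} [Monoid M] (H : Wc n M)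
    (h0 : ∀ a b : M, a ^ (2 * n) * b ^ (2 * n) = b ^ (2 * n) * a ^ (2 * n)) (a b : M) {i j : ℕ}
    (hi : 2 ≤ i) (hj : 2 ≤ j) : a ^ i * b ^ j = b ^ j * a ^ i := by
  have hz : a ^ (2 * n) * b ^ (2 * n) = (a * b) ^ (2 * n) := by
    rw [H.zdef, pow_two]
    calc a ^ (2 * n) * b ^ (2 * n) = (a ^ (2 * n) * a ^ (2 * n)) * (b ^ (2 * n) * b ^ (2 * n)) := by
          rw [H.ee, H.ee]
      _ = a ^ (2 * n) * (a ^ (2 * n) * b ^ (2 * n)) * b ^ (2 * n) := by simp only [mul_assoc]
      _ = a ^ (2 * n) * (b ^ (2 * n) * a ^ (2 * n)) * b ^ (2 * n) := by rw [h0 a b]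
      _ = _ := by simp only [mul_assoc]
  have zpow : ∀ s : ℕ, (a * b) ^ (2 * n) * (a * b ^ s) = (a * b) ^ (2 * n) * (b ^ s * a) := by
    intro s
    induction s with
    | zero => simp
    | succ s ih =>
      calc (a * b) ^ (2 * n) * (a * b ^ (s + 1)) = (a * b) ^ (2 * n) * (a * b ^ s) * b := by
            rw [pow_succ]; simp only [mul_assoc]
        _ = (a * b) ^ (2 * n) * (b ^ s * a) * b := by rw [ih]
        _ = (a * b) ^ (2 * n) * b ^ s * (a * b) := by simp only [mul_assoc]
        _ = b ^ s * (a * b) ^ (2 * n) * (a * b) := by rw [H.zcp']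
        _ = b ^ s * ((a * b) ^ (2 * n) * (a * b)) := by rw [mul_assoc]
        _ = b ^ s * ((a * b) ^ (2 * n) * (b * a)) := by rw [H.zab]
        _ = b ^ s * (a * b) ^ (2 * n) * (b * a) := by rw [mul_assoc]
        _ = (a * b) ^ (2 * n) * b ^ s * (b * a) := by rw [H.zcp']
        _ = (a * b) ^ (2 * n) * (b ^ (s + 1) * a) := by rw [pow_succ]; simp only [mul_assoc]
  have zpp : ∀ r s : ℕ, (a * b) ^ (2 * n) * (a ^ r * b ^ s) = (a * b) ^ (2 * n) * (b ^ s * a ^ r) := by
    intro r s
    induction r with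
    | zero => simp
    | succ r ih =>
      calc (a * b) ^ (2 * n) * (a ^ (r + 1) * b ^ s)
          = (a * b) ^ (2 * n) * a * (a ^ r * b ^ s) := by rw [pow_succ']; simp only [mul_assoc]
        _ = a * ((a * b) ^ (2 * n) * (a ^ r * b ^ s)) := by rw [← H.zc, mul_assoc]
        _ = a * ((a * b) ^ (2 * n) * (b ^ s * a ^ r)) := by rw [ih]
        _ = (a * b) ^ (2 * n) * (a * b ^ s) * a ^ r := by
            rw [← mul_assoc, H.zc]; simp only [mul_assoc]
        _ = (a * b) ^ (2 * n) * (b ^ s * a) * a ^ r := by rw [zpow]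
        _ = (a * b) ^ (2 * n) * (b ^ s * a ^ (r + 1)) := by
            rw [pow_succ']; simp only [mul_assoc]
  calc a ^ i * b ^ j = (a ^ i * a ^ (2 * n)) * (b ^ (2 * n) * b ^ j) := by rw [H.ae a hi, H.ea b hj]
    _ = a ^ i * (a ^ (2 * n) * b ^ (2 * n)) * b ^ j := by simp only [mul_assoc]
    _ = a ^ i * (a * b) ^ (2 * n) * b ^ j := by rw [hz]
    _ = (a * b) ^ (2 * n) * (a ^ i * b ^ j) := by rw [H.zcp]; simp only [mul_assoc]
    _ = (a * b) ^ (2 * n) * (b ^ j * a ^ i) := zpp i j
    _ = b ^ j * (a * b) ^ (2 * n) * a ^ i := by rw [H.zcp']; simp only [mul_assoc]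
    _ = b ^ j * (b ^ (2 * n) * a ^ (2 * n)) * a ^ i := by rw [← hz, h0]
    _ = (b ^ j * b ^ (2 * n)) * (a ^ (2 * n) * a ^ i) := by simp only [mul_assoc]
    _ = b ^ j * a ^ i := by rw [H.ae b hj, H.ea a hi]

end Pool.Agent.Helper70_MWR
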