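import Pool.Agent.Helper70_MWR.Lift

/-!
# The beta world for period `n`: `a b^m a ≈ Z a² b^m` (helper70)
-/

set_option autoImplicit false

namespace Pool.Agent.Helper70_MWR

open Pool.Agent.Helper14_MV Pool.Agent.Helper2_MV Pool.Agent.Helper44_MVT

namespace Wc

variable {M : Type*} [Monoid M] {n : ℕ} (H : Wc n M)
include H

theorem zabm (a b : M) (m : ℕ) :
    (a * b) ^ (2 * n) * (a * b ^ m) = (a * b) ^ (2 * n) * (b ^ m * a) := by
  induction m with
  | zero => simp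
  | succ m ih =>
    calc (a * b) ^ (2 * n) * (a * b ^ (m + 1)) = (a * b) ^ (2 * n) * (a * b ^ m) * b := by
          rw [pow_succ]; simp only [mul_assoc]
      _ = (a * b) ^ (2 * n) * (b ^ m * a) * b := by rw [ih]
      _ = (a * b) ^ (2 * n) * b ^ m * (a * b) := by simp only [mul_assoc]
      _ = b ^ m * (a * b) ^ (2 * n) * (a * b) := by rw [H.zcp']
      _ = b ^ m * ((a * b) ^ (2 * n) * (a * b)) := by rw [mul_assoc]
      _ = b ^ m * ((a * b) ^ (2 * n) * (b * a)) := by rw [H.zab]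
      _ = b ^ m * (a * b) ^ (2 * n) * (b * a) := by rw [mul_assoc]
      _ = (a * b) ^ (2 * n) * b ^ m * (b * a) := by rw [H.zcp']
      _ = (a * b) ^ (2 * n) * (b ^ (m + 1) * a) := by rw [pow_succ]; simp only [mul_assoc]

theorem emm (b : M) {m : ℕ} (hm : 1 ≤ m) : b ^ (2 * n * m) = b ^ (2 * n) := by
  rw [pow_mul b (2 * n) m, H.epow b hm]

theorem emm' (b : M) {m : ℕ} (hm : 1 ≤ m) : (b ^ m) ^ (2 * n) = b ^ (2 * n) := by
  rw [← pow_mul b m (2 * n), Nat.mul_comm m (2 * n), H.emm b hm]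

/-- `e_a b^m e_a b^m = Z b^(2m)` -/
theorem esq (a b : M) {m : ℕ} (hm : 1 ≤ m) :
    a ^ (2 * n) * b ^ m * (a ^ (2 * n) * b ^ m) = (a * b) ^ (2 * n) * b ^ (2 * m) := by
  have hn := H.pos
  have h1 : (a ^ (2 * n) * b ^ m) ^ (2 * n) = (a * b) ^ (2 * n) := by
    rw [H.zdef, H.epow a (by omega), H.emm' b hm, ← H.zdef]
  have h2 := H.ea (a ^ (2 * n) * b ^ m) (i := 2) (le_refl 2)
  rw [h1, pow_two] at h2
  calc a ^ (2 * n) * b ^ m * (a ^ (2 * n) * b ^ m)
      = (a * b) ^ (2 * n) * (a ^ (2 * n) * b ^ m * (a ^ (2 * n) * b ^ m)) := h2.symm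
    _ = (a * b) ^ (2 * n) * a ^ (2 * n) * b ^ m * (a ^ (2 * n) * b ^ m) := by
        simp only [mul_assoc]
    _ = (a * b) ^ (2 * n) * b ^ m * (a ^ (2 * n) * b ^ m) := by rw [H.ze]
    _ = b ^ m * (a * b) ^ (2 * n) * (a ^ (2 * n) * b ^ m) := by rw [H.zcp']
    _ = b ^ m * ((a * b) ^ (2 * n) * a ^ (2 * n)) * b ^ m := by simp only [mul_assoc]
    _ = b ^ m * (a * b) ^ (2 * n) * b ^ m := by rw [H.ze]
    _ = (a * b) ^ (2 * n) * b ^ (2 * m) := by
        rw [H.zcp', mul_assoc, ← pow_add]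
        congr 2
        ring

/-- `e_a b^m e_a e_b = Z b^m` -/
theorem eeb (a b : M) {m : ℕ} (hm : 2 ≤ m) :
    a ^ (2 * n) * b ^ m * (a ^ (2 * n) * b ^ (2 * n)) = (a * b) ^ (2 * n) * b ^ m := by
  have hn := H.pos
  have e1 : b ^ (2 * n) = b ^ m * b ^ (m * (2 * n - 1)) := by
    rw [← pow_add]
    have e : m + m * (2 * n - 1) = 2 * n * m := by
      obtain ⟨j, rfl⟩ := Nat.exists_eq_add_of_le hn
      have : 2 * (1 + j) - 1 = 2 * j + 1 := by omega
      rw [this]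
      ring
    rw [e, H.emm b (by omega)]
  calc a ^ (2 * n) * b ^ m * (a ^ (2 * n) * b ^ (2 * n))
      = a ^ (2 * n) * b ^ m * (a ^ (2 * n) * b ^ m) * b ^ (m * (2 * n - 1)) := by
        rw [e1]; simp only [mul_assoc]
    _ = (a * b) ^ (2 * n) * b ^ (2 * m) * b ^ (m * (2 * n - 1)) := by rw [H.esq a b (by omega)]
    _ = (a * b) ^ (2 * n) * (b ^ m * (b ^ m * b ^ (m * (2 * n - 1)))) := by
        rw [two_mul m, pow_add b m m]; simp only [mul_assoc]
    _ = (a * b) ^ (2 * n) * b ^ m := by rw [← e1, H.ae b hm]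

end Wc

namespace Wd

variable {M : Type*} [Monoid M] {n : ℕ} (H : Wd n M)
include H

/-- passing from idempotent powers to letters -/
theorem kk {a b : M} {m : ℕ}
    (h : a ^ (2 * n) * b ^ m * a ^ (2 * n) = (a * b) ^ (2 * n) * b ^ m) :
    a * b ^ m * a = (a * b) ^ (2 * n) * a ^ 2 * b ^ m := by
  calc a * b ^ m * a = a ^ (2 * n + 1) * b ^ m * a ^ (2 * n + 1) := H.bet2 a _
    _ = a * (a ^ (2 * n) * b ^ m * a ^ (2 * n)) * a := by
        have e1 : a ^ (2 * n + 1) = a * a ^ (2 * n) := pow_succ' _ _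
        have e2 : a * a ^ (2 * n) = a ^ (2 * n) * a := by rw [← pow_succ', ← pow_succ]
        calc a ^ (2 * n + 1) * b ^ m * a ^ (2 * n + 1)
            = a * a ^ (2 * n) * b ^ m * (a ^ (2 * n) * a) := by rw [← e2, e1]
          _ = _ := by simp only [mul_assoc]
    _ = a * ((a * b) ^ (2 * n) * b ^ m) * a := by rw [h]
    _ = a * (a * b) ^ (2 * n) * (b ^ m * a) := by simp only [mul_assoc]
    _ = a * ((a * b) ^ (2 * n) * (b ^ m * a)) := by rw [mul_assoc]
    _ = a * ((a * b) ^ (2 * n) * (a * b ^ m)) := by rw [H.zabm]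
    _ = a * (a * b) ^ (2 * n) * (a * b ^ m) := by rw [mul_assoc]
    _ = (a * b) ^ (2 * n) * a ^ 2 * b ^ m := by rw [H.zc, pow_two]; simp only [mul_assoc]

end Wd

variable {n : ℕ} {β : FIC}

/-- `e_a b^m e_a = Z b^m` -/
theorem kz (H : Hy n β) (a b : MM β) {m : ℕ} (hm : 2 ≤ m) :
    a ^ (2 * n) * b ^ m * a ^ (2 * n) = (a * b) ^ (2 * n) * b ^ m := by
  have hW := H.wd
  have hn := H.pos
  have ebm : b ^ (2 * n) * b ^ m = b ^ m := hW.ea b hm
  rcases al_nec H with h | h | h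
  · have h1 := of_al h.2
    have h2 : ∀ t : MM β, a ^ (2 * n) * b ^ (2 * n) * t * a ^ (2 * n) =
        a ^ (2 * n) * b ^ (2 * n) * a ^ (2 * n) * t * a ^ (2 * n) := by
      intro t
      have h3 := ev_eq h1 (fun c => if c = 0 then a else if c = 1 then b else t)
      simp only [En, es, ev_flatMap] at h3
      simp [ev, mul_assoc] at h3
      have e1 : ∀ x : MM β, a ^ (2 * n) * (a ^ (2 * n) * x) = a ^ (2 * n) * x := by
        intro x; rw [← mul_assoc, hW.ee]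
      have e2 : ∀ x : MM β, b ^ (2 * n) * (b ^ (2 * n) * x) = b ^ (2 * n) * x := by
        intro x; rw [← mul_assoc, hW.ee]
      simp only [e1, e2] at h3
      simpa only [mul_assoc] using h3
    have h4 : a ^ (2 * n) * b ^ (2 * n) * a ^ (2 * n) = (a * b) ^ (2 * n) := by
      have h5 := h2 (b ^ (2 * n))
      have e3 : a ^ (2 * n) * b ^ (2 * n) * b ^ (2 * n) = a ^ (2 * n) * b ^ (2 * n) := by
        rw [mul_assoc, hW.ee]
      rw [e3] at h5
      rw [h5]
      have e4 : a ^ (2 * n) * b ^ (2 * n) * a ^ (2 * n) * b ^ (2 * n) = (a * b) ^ (2 * n) := by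
        rw [hW.zdef, pow_two]; simp only [mul_assoc]
      rw [e4, hW.ze]
    have h6 := h2 (b ^ m)
    rw [h4, mul_assoc (a ^ (2 * n)), ebm] at h6
    rw [h6, ← hW.zcp', mul_assoc, hW.ze]
  · have h1 := of_al h.2
    have h2 : ∀ t : MM β, a ^ (2 * n) * t * b ^ (2 * n) * a ^ (2 * n) =
        a ^ (2 * n) * t * (a ^ (2 * n) * b ^ (2 * n) * a ^ (2 * n)) := by
      intro t
      have h3 := ev_eq h1 (fun c => if c = 0 then a else if c = 1 then b else t)
      simp only [En, es, ev_flatMap] at h3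
      simp [ev, mul_assoc] at h3
      have e1 : ∀ x : MM β, a ^ (2 * n) * (a ^ (2 * n) * x) = a ^ (2 * n) * x := by
        intro x; rw [← mul_assoc, hW.ee]
      have e2 : ∀ x : MM β, b ^ (2 * n) * (b ^ (2 * n) * x) = b ^ (2 * n) * x := by
        intro x; rw [← mul_assoc, hW.ee]
      simp only [e1, e2, hW.ee] at h3
      simpa only [mul_assoc] using h3
    have h4 : a ^ (2 * n) * b ^ (2 * n) * a ^ (2 * n) = (a * b) ^ (2 * n) := by
      have h5 := h2 (b ^ (2 * n))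
      have e3 : a ^ (2 * n) * b ^ (2 * n) * b ^ (2 * n) = a ^ (2 * n) * b ^ (2 * n) := by
        rw [mul_assoc, hW.ee]
      rw [e3] at h5
      rw [h5]
      have e4 : a ^ (2 * n) * b ^ (2 * n) * (a ^ (2 * n) * b ^ (2 * n) * a ^ (2 * n)) =
          (a * b) ^ (2 * n) * a ^ (2 * n) := by
        rw [hW.zdef, pow_two]; simp only [mul_assoc]
      rw [e4, hW.ze]
    have h6 := h2 (b ^ m)
    have e5 : a ^ (2 * n) * b ^ m * b ^ (2 * n) = a ^ (2 * n) * b ^ m := by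
      rw [mul_assoc, hW.ae b hm]
    rw [h4, e5] at h6
    rw [h6, mul_assoc, hW.zcp', ← mul_assoc, hW.ez]
  · have h0 : RR (al n β) [0, 1, 2, 0, 1] [0, 1, 2, 1, 0] := h.1 [] (by simp)
    have h1 := of_al h0
    have h2 : ∀ t : MM β, a ^ (2 * n) * b ^ (2 * n) * t * (a ^ (2 * n) * b ^ (2 * n)) =
        a ^ (2 * n) * b ^ (2 * n) * t * (b ^ (2 * n) * a ^ (2 * n)) := by
      intro t
      have h3 := ev_eq h1 (fun c => if c = 0 then a else if c = 1 then b else t)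
      simp only [En, es, ev_flatMap] at h3
      simp [ev, mul_assoc] at h3
      simpa only [mul_assoc] using h3
    have h6 := h2 (b ^ m)
    rw [mul_assoc (a ^ (2 * n)) (b ^ (2 * n)) (b ^ m), ebm, hW.eeb a b hm] at h6
    rw [h6, ← mul_assoc, mul_assoc (a ^ (2 * n)) (b ^ m) (b ^ (2 * n)), hW.ae b hm]

/-- `a b^m a = Z a² b^m` -/
theorem k0 (H : Hy n β) (a b : MM β) (m : ℕ) (hm : 2 ≤ m) :
    a * b ^ m * a = (a * b) ^ (2 * n) * a ^ 2 * b ^ m :=
  H.wd.kk (kz H a b hm)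

end Pool.Agent.Helper70_MWR
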