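import Pool.Agent.Helper70_MWR.Gam
import Pool.Agent.MWB.Nec
import Pool.Agent.Helper70_MWB.FIN

/-!
# The beta world for period `n`: the lifted congruence (helper70)

Words are compared after all their multiple letters have been replaced by idempotent powers.
-/

set_option autoImplicit false

namespace Pool.Agent.Helper70_MWR

open Pool.Agent.Helper14_MV Pool.Agent.Helper2_MV Pool.Agent.Helper44_MVT

/-- a multiple letter becomes idempotent -/
def es (n : ℕ) (w : List ℕ) (c : ℕ) : List ℕ :=
  if 2 ≤ w.count c then List.replicate (2 * n) c else [c]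

/-- the word with idempotent multiple letters -/
def En (n : ℕ) (w : List ℕ) : List ℕ := w.flatMap (es n w)

/-- the lifted congruence -/
def al (n : ℕ) (β : FIC) : FIC where
  r := fun u v => ∀ (φ : Word →* Word) (m q : Word),
    RR β (En n (FreeMonoid.toList (m * φ u * q))) (En n (FreeMonoid.toList (m * φ v * q)))
  refl := fun _ _ _ _ => β.refl _
  symm := fun h φ m q => β.symm (h φ m q)
  trans := fun h h' φ m q => β.trans (h φ m q) (h' φ m q)
  mul := by
    intro a b c d h h' φ m q
    rw [map_mul φ, map_mul φ]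
    have h1 := h φ m (φ c * q)
    have h2 := h' φ (m * φ b) q
    simp only [mul_assoc] at h1 h2 ⊢
    exact β.trans h1 h2
  sub := fun ψ _ _ h φ m q => h (φ.comp ψ) m q

variable {n : ℕ} {β : FIC}

theorem of_pow (k : ℕ) : (lx ^ k : Word) = FreeMonoid.ofList (List.replicate k 0) := by
  induction k with
  | zero => rfl
  | succ k ih =>
    rw [pow_succ', ih, List.replicate_succ, FreeMonoid.ofList_cons]
    rfl

theorem ncr_rep (h : ∀ k : ℕ, 1 ≤ k → ¬ β.r (lx ^ (k + 1)) lx) {p q : ℕ}
    (hr : RR β (List.replicate p 0) (List.replicate q 0)) (hp : 2 ≤ p) : 2 ≤ q := by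
  by_contra hq
  have hr1 : β.r (lx ^ p) (lx ^ q) := by
    rw [of_pow, of_pow]; exact hr
  have hq' : q = 0 ∨ q = 1 := by omega
  rcases hq' with rfl | rfl
  · apply h p (by omega)
    have := β.mul hr1 (β.refl lx)
    rw [← pow_succ, ← pow_succ, zero_add, pow_one] at this
    exact this
  · apply h (p - 1) (by omega)
    have e : p - 1 + 1 = p := by omega
    rw [e]
    rw [pow_one] at hr1
    exact hr1

theorem cnt (h : ∀ k : ℕ, 1 ≤ k → ¬ β.r (lx ^ (k + 1)) lx) {l l' : List ℕ} (hl : RR β l l')
    (c : ℕ) : 2 ≤ l.count c ↔ 2 ≤ l'.count c := by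
  have h1 := (RR.filter (fun x => x == c) hl).sub (fun _ => [0])
  have e : ∀ l : List ℕ, (l.filter (fun x => x == c)).flatMap (fun _ => [0]) =
      List.replicate (l.count c) 0 := by
    intro l
    rw [List.filter_beq]
    generalize l.count c = k
    induction k with
    | zero => rfl
    | succ k ih => rw [List.replicate_succ, List.flatMap_cons, ih]; rfl
  rw [e, e] at h1
  exact ⟨ncr_rep h h1, ncr_rep h h1.symm⟩

theorem le_al' (hncr : ∀ k : ℕ, 1 ≤ k → ¬ β.r (lx ^ (k + 1)) lx) : β ≤ al n β := by
  intro u v h φ m q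
  have h1 : RR β (FreeMonoid.toList (m * φ u * q)) (FreeMonoid.toList (m * φ v * q)) :=
    β.mul (β.mul (β.refl m) (β.sub φ h)) (β.refl q)
  have e : es n (FreeMonoid.toList (m * φ u * q)) = es n (FreeMonoid.toList (m * φ v * q)) := by
    funext c
    unfold es
    have := cnt hncr h1 c
    by_cases h2 : 2 ≤ (FreeMonoid.toList (m * φ u * q)).count c
    · rw [if_pos h2, if_pos (this.1 h2)]
    · rw [if_neg h2, if_neg (fun h3 => h2 (this.2 h3))]
  unfold En
  rw [e]
  exact h1.sub _

theorem le_al (H : Hy n β) : β ≤ al n β := le_al' H.ncr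

/-! ### products of idempotent letters -/

section idp

variable {M : Type*} [Monoid M]

theorem idp (H : Wc n M) (g : ℕ → M) : ∀ A : List ℕ, (∀ c ∈ A, g c * g c = g c) →
    Eqv (ev g A * ev g A) (ev g A) := by
  intro A
  induction A with
  | nil => intro _; rw [ev_nil, mul_one]; exact Eqv.refl _
  | cons c A ih =>
    intro h
    have ih' := ih (fun d hd => h d (by simp [hd]))
    rw [ev_cons]
    have h1 : Eqv (g c * ev g A * (g c * ev g A)) (g c * (g c * ev g A) * ev g A) := by
      have e1 : g c * ev g A * (g c * ev g A) = g c * (ev g A * g c) * ev g A := by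
        simp only [mul_assoc]
      rw [e1]
      exact ((Eqv.refl _).mul (H.comm _ _)).mul (Eqv.refl _)
    have e2 : g c * (g c * ev g A) * ev g A = g c * (ev g A * ev g A) := by
      rw [← mul_assoc, h c (by simp), mul_assoc]
    rw [e2] at h1
    exact h1.trans ((Eqv.refl _).mul ih')

theorem idp3 {a : M} (h : Eqv (a * a) a) : a * a * a = a * a := by
  have h2 := h.pw (k := 2) (le_refl 2)
  have h3 := h.pw (k := 3) (by omega)
  rw [← pow_two, ← pow_mul] at h2 h3
  have h4 : a ^ 4 = a ^ 2 := h2
  have h6 : a ^ 6 = a ^ 3 := h3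
  have : a ^ 3 = a ^ 2 := by
    calc a ^ 3 = a ^ 6 := h6.symm
      _ = a ^ 4 * a ^ 2 := by rw [← pow_add]
      _ = a ^ 2 * a ^ 2 := by rw [h4]
      _ = a ^ 4 := by rw [← pow_add]
      _ = a ^ 2 := h4
  rw [← pow_two, ← pow_succ]
  exact this

theorem idpk {a : M} (h : a * a * a = a * a) {k : ℕ} (hk : 2 ≤ k) : a ^ k = a * a := by
  obtain ⟨j, rfl⟩ := Nat.exists_eq_add_of_le hk
  clear hk
  induction j with
  | zero => rw [Nat.add_zero, pow_two]
  | succ j ih => rw [← Nat.add_assoc, pow_succ, ih, h]

end idp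

/-- the effect of more copies of a word on the multiple letters -/
theorem es_eq {w w' : List ℕ} (h : ∀ c, 2 ≤ w.count c ↔ 2 ≤ w'.count c) : es n w = es n w' := by
  funext c
  unfold es
  by_cases h2 : 2 ≤ w.count c
  · rw [if_pos h2, if_pos ((h c).1 h2)]
  · rw [if_neg h2, if_neg (fun h3 => h2 ((h c).2 h3))]

theorem es_idem (H : Wc n (MM β)) {w : List ℕ} {c : ℕ} (h : 2 ≤ w.count c) :
    ev (cn β) (es n w c) * ev (cn β) (es n w c) = ev (cn β) (es n w c) := by
  unfold es
  rw [if_pos h, ev_rep, H.ee]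

theorem al_sq (H : Wc n (MM β)) : RR (al n β) [0, 0] [0, 0, 0] := by
    intro φ m q
    have e1 : FreeMonoid.toList (m * φ (FreeMonoid.ofList [0, 0]) * q) =
        FreeMonoid.toList m ++ (FreeMonoid.toList (φ lx) ++ FreeMonoid.toList (φ lx)) ++
          FreeMonoid.toList q := by
      have : (FreeMonoid.ofList [0, 0] : Word) = lx * lx := rfl
      rw [this, map_mul φ]; rfl
    have e2 : FreeMonoid.toList (m * φ (FreeMonoid.ofList [0, 0, 0]) * q) =
        FreeMonoid.toList m ++ (FreeMonoid.toList (φ lx) ++ FreeMonoid.toList (φ lx) ++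
          FreeMonoid.toList (φ lx)) ++ FreeMonoid.toList q := by
      have : (FreeMonoid.ofList [0, 0, 0] : Word) = lx * lx * lx := rfl
      rw [this, map_mul φ, map_mul φ]; rfl
    rw [e1, e2]
    generalize FreeMonoid.toList m = m
    generalize FreeMonoid.toList q = q
    generalize FreeMonoid.toList (φ lx) = A
    have hc : ∀ c, 2 ≤ (m ++ (A ++ A) ++ q).count c ↔ 2 ≤ (m ++ (A ++ A ++ A) ++ q).count c := by
      intro c
      simp only [List.count_append]
      omega
    have hA : ∀ c ∈ A, 2 ≤ (m ++ (A ++ A) ++ q).count c := by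
      intro c hc
      have := List.count_pos_iff.2 hc
      simp only [List.count_append]
      omega
    unfold En
    rw [← es_eq (n := n) hc, rr_iff, ev_flatMap, ev_flatMap]
    simp only [ev_append]
    have h1 := idp3 (idp H (fun c => ev (cn β) (es n (m ++ (A ++ A) ++ q) c)) A
      (fun c hc => es_idem H (hA c hc)))
    rw [h1]

theorem al_b0 (H : Hy n β) : MWB.B0 (al n β) := by
  constructor
  · exact al_sq H.wd.toWc
  · intro φ m q
    have e1 : FreeMonoid.toList (m * φ (FreeMonoid.ofList [0, 1, 0]) * q) =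
        FreeMonoid.toList m ++ (FreeMonoid.toList (φ lx) ++ FreeMonoid.toList (φ ly) ++
          FreeMonoid.toList (φ lx)) ++ FreeMonoid.toList q := by
      have : (FreeMonoid.ofList [0, 1, 0] : Word) = lx * ly * lx := rfl
      rw [this, map_mul φ, map_mul φ]; rfl
    have e2 : FreeMonoid.toList (m * φ (FreeMonoid.ofList [0, 0, 1, 0, 0]) * q) =
        FreeMonoid.toList m ++ (FreeMonoid.toList (φ lx) ++ FreeMonoid.toList (φ lx) ++
          FreeMonoid.toList (φ ly) ++ FreeMonoid.toList (φ lx) ++ FreeMonoid.toList (φ lx)) ++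
            FreeMonoid.toList q := by
      have : (FreeMonoid.ofList [0, 0, 1, 0, 0] : Word) = lx * lx * ly * lx * lx := rfl
      rw [this, map_mul φ, map_mul φ, map_mul φ, map_mul φ]; rfl
    rw [e1, e2]
    generalize FreeMonoid.toList m = m
    generalize FreeMonoid.toList q = q
    generalize FreeMonoid.toList (φ lx) = A
    generalize FreeMonoid.toList (φ ly) = B
    have hc : ∀ c, 2 ≤ (m ++ (A ++ B ++ A) ++ q).count c ↔
        2 ≤ (m ++ (A ++ A ++ B ++ A ++ A) ++ q).count c := by
      intro c
      simp only [List.count_append]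
      omega
    have hA : ∀ c ∈ A, 2 ≤ (m ++ (A ++ B ++ A) ++ q).count c := by
      intro c hc
      have := List.count_pos_iff.2 hc
      simp only [List.count_append]
      omega
    unfold En
    rw [← es_eq (n := n) hc, rr_iff, ev_flatMap, ev_flatMap]
    simp only [ev_append]
    have h1 := idp3 (idp H.wd.toWc (fun c => ev (cn β) (es n (m ++ (A ++ B ++ A) ++ q) c)) A
      (fun c hc => es_idem H.wd.toWc (hA c hc)))
    generalize ev (fun c => ev (cn β) (es n (m ++ (A ++ B ++ A) ++ q) c)) A = a at h1 ⊢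
    generalize ev (fun c => ev (cn β) (es n (m ++ (A ++ B ++ A) ++ q) c)) B = b
    have hn := H.pos
    have h2 : a * b * a = a * a * b * a * a := by
      rw [H.bet' a b, idpk h1 (by omega)]
      simp only [mul_assoc]
    rw [h2]

theorem al_ncr' (hn : 1 ≤ n) (hncr : ∀ k : ℕ, 1 ≤ k → ¬ β.r (lx ^ (k + 1)) lx) :
    MWB.NCR (al n β) := by
  intro k hk h
  have h1 := h (MonoidHom.id Word) 1 1
  simp only [MonoidHom.id_apply, one_mul, mul_one] at h1
  have e1 : En n (FreeMonoid.toList (lx ^ (k + 1))) = List.replicate ((k + 1) * (2 * n)) 0 := by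
    have e2 : FreeMonoid.toList (lx ^ (k + 1)) = List.replicate (k + 1) 0 := by
      rw [of_pow]; rfl
    rw [e2]
    unfold En
    have e3 : ∀ c ∈ List.replicate (k + 1) 0, es n (List.replicate (k + 1) 0) c =
        List.replicate (2 * n) 0 := by
      intro c hc
      have hc' : c = 0 := by
        rw [List.mem_replicate] at hc
        exact hc.2
      subst hc'
      unfold es
      rw [if_pos (by rw [List.count_replicate_self]; omega)]
    rw [List.flatMap_congr e3]
    generalize k + 1 = j
    induction j with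
    | zero => simp
    | succ j ih =>
      rw [List.replicate_succ, List.flatMap_cons, ih, List.replicate_append_replicate]
      congr 1
      ring
  have e2 : En n (FreeMonoid.toList lx) = [0] := by
    have : FreeMonoid.toList lx = [0] := rfl
    rw [this]
    rfl
  rw [e1, e2] at h1
  obtain ⟨j, hj⟩ : ∃ j, (k + 1) * (2 * n) = j + 1 ∧ 1 ≤ j := by
    have : 4 ≤ (k + 1) * (2 * n) := by nlinarith
    exact ⟨(k + 1) * (2 * n) - 1, by omega, by omega⟩
  apply hncr j hj.2
  rw [← hj.1, of_pow]
  exact h1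

theorem al_ncr (H : Hy n β) : MWB.NCR (al n β) := al_ncr' H.pos H.ncr

theorem al_modF' (hm : ModF β) (hncr : ∀ k : ℕ, 1 ≤ k → ¬ β.r (lx ^ (k + 1)) lx) :
    ModF (al n β) := by
  intro ρ σ τ hρ hσ hτ
  exact hm ρ σ τ (FIC.le_trans' (le_al' hncr) hρ) (FIC.le_trans' (le_al' hncr) hσ)
    (FIC.le_trans' (le_al' hncr) hτ)

theorem al_modF (H : Hy n β) : ModF (al n β) := al_modF' H.hm H.ncr

/-- the theorem for aperiodic varieties applied to the lifted congruence -/
theorem al_nec (H : Hy n β) : MWB.BW (al n β) ∨ MWB.BW' (al n β) ∨ MWB.BB (al n β) :=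
  MWB.nec MWP.H70.fin (al n β) (al_modF H) (al_ncr H) (al_b0 H)

theorem of_al {l l' : List ℕ} (h : RR (al n β) l l') : RR β (En n l) (En n l') := by
  have h1 := h (MonoidHom.id Word) 1 1
  simp only [MonoidHom.id_apply, one_mul, mul_one] at h1
  exact h1

end Pool.Agent.Helper70_MWR
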