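import Pool.Agent.Helper70_MWR.K0
import Pool.Agent.MWPC.Fin0

/-!
# The beta world for period `n`: the literal identities (helper70)
-/

set_option autoImplicit false

namespace Pool.Agent.Helper70_MWR

open Pool.Agent.Helper14_MV Pool.Agent.Helper2_MV Pool.Agent.Helper44_MVT
open Pool.Agent.MWPN (ip)

namespace Wc

variable {M : Type*} [Monoid M] {n : ℕ} (H : Wc n M)
include H

/-- the powers of the letters commute below the zero -/
theorem zpp (a b : M) (i j : ℕ) :
    (a * b) ^ (2 * n) * (a ^ i * b ^ j) = (a * b) ^ (2 * n) * (b ^ j * a ^ i) := by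
  induction i with
  | zero => simp
  | succ i ih =>
    calc (a * b) ^ (2 * n) * (a ^ (i + 1) * b ^ j)
        = (a * b) ^ (2 * n) * a * (a ^ i * b ^ j) := by rw [pow_succ']; simp only [mul_assoc]
      _ = a * ((a * b) ^ (2 * n) * (a ^ i * b ^ j)) := by rw [← H.zc, mul_assoc]
      _ = a * ((a * b) ^ (2 * n) * (b ^ j * a ^ i)) := by rw [ih]
      _ = (a * b) ^ (2 * n) * (a * b ^ j) * a ^ i := by
          rw [← mul_assoc, H.zc]; simp only [mul_assoc]
      _ = (a * b) ^ (2 * n) * (b ^ j * a) * a ^ i := by rw [H.zabm]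
      _ = (a * b) ^ (2 * n) * (b ^ j * a ^ (i + 1)) := by
          rw [pow_succ']; simp only [mul_assoc]

/-- `Z a^n = Z` -/
theorem zan (a b : M) : (a * b) ^ (2 * n) * a ^ n = (a * b) ^ (2 * n) := by
  have hn := H.pos
  have e : a ^ (2 * n) * a ^ n = a ^ (2 * n) := by
    rw [← pow_add, H.per1 a (by omega)]
  calc (a * b) ^ (2 * n) * a ^ n = (a * b) ^ (2 * n) * a ^ (2 * n) * a ^ n := by rw [H.ze]
    _ = (a * b) ^ (2 * n) * (a ^ (2 * n) * a ^ n) := by rw [mul_assoc]
    _ = _ := by rw [e, H.ze]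

/-- `(ab)² = Z a² b²` -/
theorem abab (a b : M) : a * b * (a * b) = (a * b) ^ (2 * n) * (a ^ 2 * b ^ 2) := by
  have h := H.ea (a * b) (i := 2) (le_refl 2)
  rw [pow_two] at h
  calc a * b * (a * b) = (a * b) ^ (2 * n) * (a * b * (a * b)) := h.symm
    _ = (a * b) ^ (2 * n) * a * (b * a) * b := by simp only [mul_assoc]
    _ = a * ((a * b) ^ (2 * n) * (b * a)) * b := by
        rw [← H.zc]; simp only [mul_assoc]
    _ = a * ((a * b) ^ (2 * n) * (a * b)) * b := by rw [H.zab]
    _ = a * (a * b) ^ (2 * n) * (a * b * b) := by simp only [mul_assoc]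
    _ = (a * b) ^ (2 * n) * (a ^ 2 * b ^ 2) := by
        rw [H.zc, pow_two, pow_two]; simp only [mul_assoc]

theorem sqc (a b : M) : a * b * (a * b) = b * a * (b * a) := by
  have := (H.comm a b).pw (k := 2) (le_refl 2)
  rw [pow_two, pow_two] at this
  exact this

end Wc

variable {n : ℕ} {β : FIC}

/-- `(ab)² = a b² a` -/
theorem abba (H : Hy n β) (a b : MM β) : a * b * (a * b) = a * b ^ 2 * a := by
  rw [k0 H a b 2 (le_refl 2), H.wd.abab]
  simp only [mul_assoc]

theorem zq1 (H : Hy n β) : RR β [0, 1, 0, 1] [1, 0, 1, 0] := by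
  rw [rr_iff]
  have := H.wd.sqc (cn β 0) (cn β 1)
  simpa [ev, mul_assoc] using this

theorem zq2 (H : Hy n β) : RR β [0, 1, 0, 1] [0, 1, 1, 0] := by
  rw [rr_iff]
  have := abba H (cn β 0) (cn β 1)
  simpa [ev, mul_assoc, pow_two] using this

theorem zq3 (H : Hy n β) : RR β [0, 1, 0, 1] [1, 0, 0, 1] := by
  rw [rr_iff]
  have h1 := abba H (cn β 1) (cn β 0)
  have h2 := H.wd.sqc (cn β 0) (cn β 1)
  rw [h1] at h2
  simpa [ev, mul_assoc, pow_two] using h2

/-- the literal form of the identity of the class W -/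
theorem litW (H : Hy n β) (h : RR β (ip n 0 ++ ip n 1 ++ 2 :: ip n 0)
    (ip n 0 ++ ip n 1 ++ ip n 0 ++ 2 :: ip n 0)) :
    RR β [0, 1, 1, 2, 0] ([0, 1, 1] ++ (List.replicate n 0 ++ [2, 0])) := by
  have hW := H.wd
  have hn := H.pos
  have key : ∀ a b t : MM β, a ^ (2 * n) * b ^ (2 * n) * t * a ^ (2 * n) =
      (a * b) ^ (2 * n) * t * a ^ (2 * n) := by
    intro a b t
    have h1 := ev_eq h (fun c => if c = 0 then a else if c = 1 then b else t)
    have e1 : a ^ (2 * n) * b ^ (2 * n) * a ^ (2 * n) = (a * b) ^ (2 * n) := by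
      rw [kz H a b (by omega), hW.ze']
    simp only [ip, ev_append, ev_cons, ev_rep] at h1
    simp only [if_pos, if_neg, one_ne_zero, OfNat.ofNat_ne_zero, OfNat.ofNat_ne_one,
      not_false_eq_true] at h1
    rw [e1] at h1
    simpa only [mul_assoc] using h1
  have gen : ∀ a b t : MM β, a * (b ^ 2 * t) * a = a * ((a * b) ^ (2 * n) * (b ^ 2 * t) * a ^ (2 * n)) * a := by
    intro a b t
    calc a * (b ^ 2 * t) * a = a ^ (2 * n + 1) * (b ^ 2 * t) * a ^ (2 * n + 1) := hW.bet2 _ _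
      _ = a * (a ^ (2 * n) * b ^ (2 * n) * (b ^ 2 * t) * a ^ (2 * n)) * a := by
          have e1 : a ^ (2 * n + 1) = a * a ^ (2 * n) := pow_succ' _ _
          have e2 : a ^ (2 * n + 1) = a ^ (2 * n) * a := pow_succ _ _
          have e3 : b ^ 2 * t = b ^ (2 * n) * (b ^ 2 * t) := by
            rw [← mul_assoc, hW.ea b (le_refl 2)]
          calc a ^ (2 * n + 1) * (b ^ 2 * t) * a ^ (2 * n + 1)
              = a * a ^ (2 * n) * (b ^ 2 * t) * (a ^ (2 * n) * a) := by rw [← e1, ← e2]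
            _ = a * a ^ (2 * n) * (b ^ (2 * n) * (b ^ 2 * t)) * (a ^ (2 * n) * a) := by rw [← e3]
            _ = _ := by simp only [mul_assoc]
      _ = _ := by rw [key]
  have fin : ∀ a b t : MM β, a * (b ^ 2 * t) * a = a * (b ^ 2 * (a ^ n * t)) * a := by
    intro a b t
    rw [gen a b t, gen a b (a ^ n * t)]
    have e4 : (a * b) ^ (2 * n) * (b ^ 2 * (a ^ n * t)) = (a * b) ^ (2 * n) * (b ^ 2 * t) := by
      calc (a * b) ^ (2 * n) * (b ^ 2 * (a ^ n * t))
          = (a * b) ^ (2 * n) * b ^ 2 * (a ^ n * t) := by simp only [mul_assoc]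
        _ = b ^ 2 * ((a * b) ^ (2 * n) * a ^ n) * t := by rw [← hW.zcp']; simp only [mul_assoc]
        _ = b ^ 2 * (a * b) ^ (2 * n) * t := by rw [hW.zan]
        _ = _ := by rw [hW.zcp']; simp only [mul_assoc]
    rw [e4]
  rw [rr_iff]
  have h2 := fin (cn β 0) (cn β 1) (cn β 2)
  simp only [ev_append, ev_cons, ev_rep, ev_nil]
  simpa [mul_assoc, pow_two] using h2

/-! ### change of the period -/

theorem rep_cast (H : Hy n β) {p q : ℕ} (hp : 2 ≤ p) (hq : 2 ≤ q) (h : p ≡ q [MOD n]) (a : MM β) :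
    a ^ p = a ^ q := H.wd.pw a hp hq h

/-- the literal identity of the class W for a multiple of the period -/
theorem litW_mul (k : ℕ) (h : RR β [0, 1, 1, 2, 0] ([0, 1, 1] ++ (List.replicate n 0 ++ [2, 0]))) :
    RR β [0, 1, 1, 2, 0] ([0, 1, 1] ++ (List.replicate (n * k) 0 ++ [2, 0])) := by
  have h1 : ∀ a b t : MM β, a * (b * (b * (t * a))) = a * (b * (b * (a ^ n * (t * a)))) := by
    intro a b t
    have h2 := ev_eq h (fun c => if c = 0 then a else if c = 1 then b else t)
    simp only [ev_append, ev_cons, ev_rep, ev_nil] at h2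
    simpa [mul_assoc] using h2
  have h3 : ∀ k : ℕ, ∀ a b t : MM β,
      a * (b * (b * (t * a))) = a * (b * (b * (a ^ (n * k) * (t * a)))) := by
    intro k
    induction k with
    | zero => intro a b t; simp
    | succ k ih =>
      intro a b t
      rw [ih a b t]
      have h4 := h1 a b (a ^ (n * k) * t)
      rw [mul_assoc] at h4
      rw [h4, Nat.mul_succ, Nat.add_comm, pow_add]
      simp only [mul_assoc]
  rw [rr_iff]
  have h2 := h3 k (cn β 0) (cn β 1) (cn β 2)
  simp only [ev_append, ev_cons, ev_rep, ev_nil]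
  simpa [mul_assoc] using h2

end Pool.Agent.Helper70_MWR
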