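import Pool.Agent.Helper70_MWR.Comp

/-!
# Local words in two letters (helper70)
-/

set_option autoImplicit false

namespace Pool.Agent.Helper70_MWR

open Pool.Agent.Helper14_MV Pool.Agent.Helper2_MV Pool.Agent.Helper44_MVT
open Pool.Agent.MWPN (ip DV Mul)
open Pool.Agent.MWPN.C (Chw Two rtr rep_mod chw_loc)

theorem dec0 {x y : ℕ} : ∀ u : List ℕ, (∀ c ∈ u, c = x ∨ c = y) → x ∈ u →
    ∃ (j : ℕ) (w : List ℕ), u = List.replicate j y ++ x :: w := by
  intro u
  induction u with
  | nil => intro _ h; simp at h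
  | cons c u ih =>
    intro hu hx
    by_cases hc : c = x
    · subst hc
      exact ⟨0, u, rfl⟩
    · have hc' : c = y := (hu c (by simp)).resolve_left hc
      have hx' : x ∈ u := by
        rcases List.mem_cons.1 hx with h | h
        · exact absurd h.symm hc
        · exact h
      obtain ⟨j, w, rfl⟩ := ih (fun d hd => hu d (by simp [hd])) hx'
      refine ⟨j + 1, w, ?_⟩
      rw [hc', List.replicate_succ]
      rfl

theorem dec1 {x y : ℕ} (hxy : x ≠ y) : ∀ u : List ℕ, (∀ c ∈ u, c = x ∨ c = y) →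
    [y, x].Sublist u →
    ∃ (i j : ℕ) (w : List ℕ), u = List.replicate i x ++ (List.replicate (j + 1) y ++ x :: w) := by
  intro u
  induction u with
  | nil => intro _ h; simp at h
  | cons c u ih =>
    intro hu h
    by_cases hc : c = x
    · subst hc
      have h1 : [y, c].Sublist u := by
        cases h with
        | cons _ h2 => exact h2
        | cons_cons _ h2 => exact absurd rfl hxy
      obtain ⟨i, j, w, rfl⟩ := ih (fun d hd => hu d (by simp [hd])) h1
      exact ⟨i + 1, j, w, by rw [List.replicate_succ]; rfl⟩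
    · have hc' : c = y := (hu c (by simp)).resolve_left hc
      have hx' : x ∈ u := by
        have h2 : x ∈ c :: u := h.subset (by simp)
        rcases List.mem_cons.1 h2 with h3 | h3
        · exact absurd h3.symm hc
        · exact h3
      obtain ⟨j, w, rfl⟩ := dec0 u (fun d hd => hu d (by simp [hd])) hx'
      exact ⟨0, j, w, by rw [hc', List.replicate_succ]; rfl⟩

section

variable {M : Type*} [Monoid M] {n : ℕ}

theorem absorb (H : Wd n M)
    (K0 : ∀ (a b : M) (m : ℕ), 2 ≤ m → a * b ^ m * a = (a * b) ^ (2 * n) * a ^ 2 * b ^ m)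
    (g : ℕ → M) {x y : ℕ} (hxy : x ≠ y) {u : List ℕ} (hu : ∀ c ∈ x :: u, c = x ∨ c = y)
    (h : [y, x].Sublist (x :: u)) (hc : 2 ≤ (x :: u).count y) :
    (g x * g y) ^ (2 * n) * ev g (x :: u) = ev g (x :: u) := by
  have hn := H.pos
  obtain ⟨i, j, w, e⟩ := dec1 hxy _ hu h
  have hi : ∃ i', i = i' + 1 := by
    rcases Nat.eq_zero_or_pos i with h0 | h0
    · subst h0
      rw [List.replicate_zero, List.nil_append, List.replicate_succ, List.cons_append] at e
      exact absurd (List.cons.inj e).1 hxy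
    · exact ⟨i - 1, by omega⟩
  obtain ⟨i, rfl⟩ := hi
  -- the value of the word with the second block raised
  have key : ∃ (m : ℕ) (r : M), 2 ≤ m ∧ ev g (x :: u) = g x ^ i * (g x * g y ^ m * g x) * r := by
    rcases Nat.eq_zero_or_pos j with h0 | h0
    · subst h0
      have hy : y ∈ w := by
        rw [e] at hc
        rw [List.count_append, List.count_append, List.count_replicate, List.count_replicate_self,
          List.count_cons] at hc
        rw [if_neg (by simpa using hxy), if_neg (by simpa using hxy)] at hc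
        exact List.count_pos_iff.1 (by omega)
      obtain ⟨w1, w2, rfl⟩ := List.append_of_mem hy
      refine ⟨2 * n + 1, ev g w1 * g y * ev g w2, by omega, ?_⟩
      rw [e]
      simp only [ev_append, ev_cons, ev_rep]
      have h1 := H.betl (g y) (g x * ev g w1)
      calc g x ^ (i + 1) * (g y ^ (0 + 1) * (g x * (ev g w1 * (g y * ev g w2))))
          = g x ^ (i + 1) * (g y * (g x * ev g w1) * g y) * ev g w2 := by
            rw [zero_add, pow_one]; simp only [mul_assoc]
        _ = g x ^ (i + 1) * (g y ^ (2 * n + 1) * (g x * ev g w1) * g y) * ev g w2 := by rw [h1]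
        _ = _ := by rw [pow_succ (g x) i]; simp only [mul_assoc]
    · refine ⟨j + 1, ev g w, by omega, ?_⟩
      rw [e]
      simp only [ev_append, ev_cons, ev_rep]
      rw [pow_succ (g x) i]; simp only [mul_assoc]
  obtain ⟨m, r, hm, e1⟩ := key
  rw [e1, K0 _ _ m hm]
  calc (g x * g y) ^ (2 * n) * (g x ^ i * ((g x * g y) ^ (2 * n) * g x ^ 2 * g y ^ m) * r)
      = (g x * g y) ^ (2 * n) * (g x ^ i * (g x * g y) ^ (2 * n)) * (g x ^ 2 * g y ^ m * r) := by
        simp only [mul_assoc]
    _ = g x ^ i * (g x * g y) ^ (2 * n) * (g x ^ 2 * g y ^ m * r) := by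
        rw [H.zcp, ← mul_assoc ((g x * g y) ^ (2 * n)) ((g x * g y) ^ (2 * n)), H.zz]
    _ = _ := by simp only [mul_assoc]

/-- below the zero a word is determined by the numbers of its letters -/
theorem below (H : Wd n M) (g : ℕ → M) : ∀ u : List ℕ, (∀ c ∈ u, c = 0 ∨ c = 1) →
    (g 0 * g 1) ^ (2 * n) * ev g u =
      (g 0 * g 1) ^ (2 * n) * (g 0 ^ u.count 0 * g 1 ^ u.count 1) := by
  intro u
  induction u with
  | nil => intro _; simp [ev_nil]
  | cons c u ih =>
    intro hu
    have ih' := ih (fun d hd => hu d (by simp [hd]))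
    rw [ev_cons]
    rcases hu c (by simp) with rfl | rfl
    · have e0 : (0 :: u).count 0 = u.count 0 + 1 := List.count_cons_self
      have e1 : (0 :: u).count 1 = u.count 1 := by
        rw [List.count_cons_of_ne (by omega)]
      rw [e0, e1]
      calc (g 0 * g 1) ^ (2 * n) * (g 0 * ev g u) = g 0 * ((g 0 * g 1) ^ (2 * n) * ev g u) := by
            rw [← mul_assoc, ← H.zc, mul_assoc]
        _ = g 0 * ((g 0 * g 1) ^ (2 * n) * (g 0 ^ u.count 0 * g 1 ^ u.count 1)) := by rw [ih']
        _ = g 0 * (g 0 * g 1) ^ (2 * n) * (g 0 ^ u.count 0 * g 1 ^ u.count 1) := by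
            rw [mul_assoc]
        _ = _ := by rw [H.zc, pow_succ' (g 0)]; simp only [mul_assoc]
    · have e0 : (1 :: u).count 0 = u.count 0 := by
        rw [List.count_cons_of_ne (by omega)]
      have e1 : (1 :: u).count 1 = u.count 1 + 1 := List.count_cons_self
      rw [e0, e1]
      calc (g 0 * g 1) ^ (2 * n) * (g 1 * ev g u) = g 1 * ((g 0 * g 1) ^ (2 * n) * ev g u) := by
            rw [← mul_assoc, ← H.zc', mul_assoc]
        _ = g 1 * ((g 0 * g 1) ^ (2 * n) * (g 0 ^ u.count 0 * g 1 ^ u.count 1)) := by rw [ih']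
        _ = g 1 * ((g 0 * g 1) ^ (2 * n) * (g 1 ^ u.count 1 * g 0 ^ u.count 0)) := by rw [H.zpp]
        _ = g 1 * (g 0 * g 1) ^ (2 * n) * (g 1 ^ u.count 1 * g 0 ^ u.count 0) := by
            rw [mul_assoc]
        _ = (g 0 * g 1) ^ (2 * n) * (g 1 ^ (u.count 1 + 1) * g 0 ^ u.count 0) := by
            rw [H.zc', pow_succ' (g 1)]; simp only [mul_assoc]
        _ = _ := by rw [H.zpp]

/-- the exponents below the zero matter only modulo the period -/
theorem zmod (H : Wd n M) (a b : M) {p q : ℕ} (h : p ≡ q [MOD n]) :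
    (a * b) ^ (2 * n) * a ^ p = (a * b) ^ (2 * n) * a ^ q := by
  have hn := H.pos
  have e : ∀ p : ℕ, (a * b) ^ (2 * n) * a ^ p = (a * b) ^ (2 * n) * a ^ (2 * n + p) := by
    intro p
    rw [pow_add, ← mul_assoc, H.ze]
  rw [e p, e q, H.pw a (by omega) (by omega) (Nat.ModEq.add_left (2 * n) h)]

end

variable {n : ℕ} {β : FIC}

theorem loc2 (H : Hy n β) : Loc2 n β := by
  intro u v hu hMu hMv hm hc hp
  have hW := H.wd
  have hv : Two v := fun a ha => hu a ((hm a).2 ha)
  by_cases hb : [0, 1].Sublist u ∧ [1, 0].Sublist u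
  · have key : ∀ w : List ℕ, Two w → Mul w → [0, 1].Sublist w → [1, 0].Sublist w →
        ev (cn β) w = (cn β 0 * cn β 1) ^ (2 * n) * (cn β 0 ^ w.count 0 * cn β 1 ^ w.count 1) := by
      intro w hw hMw h01 h10
      rw [← below hW (cn β) w hw]
      have cnt2 : ∀ c ∈ w, 2 ≤ w.count c := by
        intro c hc
        have := (hMw c hc).count_le c
        simpa using this
      have m0 : 0 ∈ w := h01.subset (by simp)
      have m1 : 1 ∈ w := h01.subset (by simp)
      rcases w with _ | ⟨c, w⟩
      · simp at m0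
      · rcases hw c (by simp) with rfl | rfl
        · exact (absorb hW (k0 H) (cn β) (x := 0) (y := 1) (by omega) hw h10 (cnt2 1 m1)).symm
        · have h1 := absorb hW (k0 H) (cn β) (x := 1) (y := 0) (by omega)
            (fun c hc => (hw c hc).symm) h01 (cnt2 0 m0)
          rw [hW.zsymm] at h1
          exact h1.symm
    rw [rr_iff, key u hu hMu hb.1 hb.2,
      key v hv hMv ((hp 0 1 (by omega)).1 hb.1) ((hp 1 0 (by omega)).1 hb.2)]
    rw [← mul_assoc, zmod hW _ _ (hc 0), mul_assoc, hW.zpp, ← mul_assoc]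
    rw [hW.zsymm, zmod hW _ _ (hc 1), hW.zsymm, mul_assoc, hW.zpp]
  · have hch : Chw u := by
      intro a b hab h1 h2
      have ha := hu a (h1.subset (by simp))
      have hb' := hu b (h1.subset (by simp))
      rcases ha with rfl | rfl <;> rcases hb' with rfl | rfl
      · exact hab rfl
      · exact hb ⟨h1, h2⟩
      · exact hb ⟨h2, h1⟩
      · exact hab rfl
    exact chw_loc H.per u.length u v le_rfl hch hMu hMv hm hc hp

/-- **necessity in the beta world for every period** -/
theorem nec {n : ℕ} {β : FIC} (hn : 1 ≤ n)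
    (hper : RR β [0, 0] (List.replicate (n + 2) 0))
    (hncr : ∀ k : ℕ, 1 ≤ k → ¬ β.r (lx ^ (k + 1)) lx)
    (hbet : RR β [0, 1, 0] (List.replicate (n + 1) 0 ++ 1 :: List.replicate (n + 1) 0))
    (hm : ModF β) : LW n (RR β) ∨ LW n (RR (FIC.op β)) ∨ LB n (RR β) :=
  necB (fun _ _ H => loc2 H) hn hper hncr hbet hm

end Pool.Agent.Helper70_MWR
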