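import Pool.Agent.Helper70_MWR.Loc2
import Pool.Agent.Helper70_MWR.CompS
import Pool.Agent.Helper85_MWBN.Bridge
import Pool.Agent.MWU.Cls

/-!
# Monoid varieties with modular subvariety lattice: the varieties satisfying
`xyx ≈ x^p y x^q` for some `p, q ≥ 2`

`V.Sat (w u) (w v)` stands for: the variety `V` satisfies the identity `u ≈ v`.  Words are lists of
letters; the letters `0, 1, 2` are written `x, y, t` in the comments.
-/

set_option autoImplicit false

namespace Pool.Agent.Helper70_MWR.Result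

open Pool.Agent.Helper14_MV Pool.Agent.Helper2_MV

/-- the word with the given list of letters -/
def w (l : List ℕ) : Word := FreeMonoid.ofList l

/-- every letter written `k` times: the product of the `k`-th powers of the letters of `l` -/
def pw (k : ℕ) (l : List ℕ) : List ℕ := l.flatMap (fun c => List.replicate k c)

/-- first system: `xyxy ≈ yxyx ≈ xy²x` and `x y² t x ≈ x y² x^n t x` -/
structure SysW (n : ℕ) (V : Variety) : Prop where
  zero : V.Sat (w [0, 1, 0, 1]) (w [1, 0, 1, 0])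
  abel : V.Sat (w [0, 1, 0, 1]) (w [0, 1, 1, 0])
  move : V.Sat (w [0, 1, 1, 2, 0]) (w ([0, 1, 1] ++ (List.replicate n 0 ++ [2, 0])))

/-- the dual of the first system: `xyxy ≈ yxyx ≈ xy²x` and `x t y² x ≈ x t x^n y² x` -/
structure CoSysW (n : ℕ) (V : Variety) : Prop where
  zero : V.Sat (w [0, 1, 0, 1]) (w [1, 0, 1, 0])
  abel : V.Sat (w [0, 1, 0, 1]) (w [0, 1, 1, 0])
  move : V.Sat (w [0, 2, 1, 1, 0]) (w ([0, 2] ++ (List.replicate n 0 ++ [1, 1, 0])))

/-- second system: `x v y t xy ≈ x v y t yx` and `xy t x v y ≈ yx t x v y` for all products `v` of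
`(n+1)`-th powers of letters different from `x, y, t` -/
structure SysB (n : ℕ) (V : Variety) : Prop where
  right : ∀ l : List ℕ, (∀ c ∈ l, 3 ≤ c) →
    V.Sat (w ([0] ++ (pw (n + 1) l ++ [1, 2, 0, 1]))) (w ([0] ++ (pw (n + 1) l ++ [1, 2, 1, 0])))
  left : ∀ l : List ℕ, (∀ c ∈ l, 3 ≤ c) →
    V.Sat (w ([0, 1, 2, 0] ++ (pw (n + 1) l ++ [1]))) (w ([1, 0, 2, 0] ++ (pw (n + 1) l ++ [1])))

/-! ### periods -/

/-- `xyx ≈ x^(n+1) y x^(n+1)` for every period `n` -/
theorem be_of {β : FIC} {p q n : ℕ} (hp : 2 ≤ p) (hq : 2 ≤ q)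
    (h : β.r (lx * ly * lx) (lx ^ p * ly * lx ^ q)) (hn : β.r (lx ^ 2) (lx ^ (n + 2))) :
    RR β [0, 1, 0] (List.replicate (n + 1) 0 ++ 1 :: List.replicate (n + 1) 0) := by
  have per : ∀ j, 2 ≤ j → β.r (lx ^ j) (lx ^ (n + j)) := by
    intro j hj
    have h1 := β.mul hn (β.refl (lx ^ (j - 2)))
    rw [← pow_add, ← pow_add] at h1
    have e1 : 2 + (j - 2) = j := by omega
    have e2 : n + 2 + (j - 2) = n + j := by omega
    rw [e1, e2] at h1
    exact h1
  have hl : β.r (lx * ly * lx) (lx ^ n * (lx * ly * lx)) := by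
    have h1 : β.r (lx ^ p * ly * lx ^ q) (lx ^ (n + p) * ly * lx ^ q) :=
      β.mul (β.mul (per p hp) (β.refl _)) (β.refl _)
    have h2 : β.r (lx ^ n * (lx * ly * lx)) (lx ^ n * (lx ^ p * ly * lx ^ q)) :=
      β.mul (β.refl _) h
    have e : lx ^ (n + p) * ly * lx ^ q = lx ^ n * (lx ^ p * ly * lx ^ q) := by
      rw [pow_add]; simp only [mul_assoc]
    rw [e] at h1
    exact β.trans h (β.trans h1 (β.symm h2))
  have hr : β.r (lx * ly * lx) (lx * ly * lx * lx ^ n) := by
    have h1 : β.r (lx ^ p * ly * lx ^ q) (lx ^ p * ly * lx ^ (n + q)) :=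
      β.mul (β.refl _) (per q hq)
    have h2 : β.r (lx * ly * lx * lx ^ n) (lx ^ p * ly * lx ^ q * lx ^ n) :=
      β.mul h (β.refl _)
    have e : lx ^ p * ly * lx ^ (n + q) = lx ^ p * ly * lx ^ q * lx ^ n := by
      rw [Nat.add_comm n q, pow_add]; simp only [mul_assoc]
    rw [e] at h1
    exact β.trans h (β.trans h1 (β.symm h2))
  have h3 : β.r (lx * ly * lx) (lx ^ n * (lx * ly * lx * lx ^ n)) :=
    β.trans hl (β.mul (β.refl _) hr)
  have e : lx ^ n * (lx * ly * lx * lx ^ n) = lx ^ (n + 1) * (ly * lx ^ (n + 1)) := by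
    rw [pow_succ lx n]
    have : lx ^ n * lx = lx * lx ^ n := by rw [← pow_succ, pow_succ']
    calc lx ^ n * (lx * ly * lx * lx ^ n) = (lx ^ n * lx) * (ly * (lx * lx ^ n)) := by
          simp only [mul_assoc]
      _ = (lx ^ n * lx) * (ly * (lx ^ n * lx)) := by rw [this]
  rw [e, of_pow] at h3
  exact h3

theorem per_of {β : FIC} {n : ℕ} (h : β.r (lx ^ 2) (lx ^ (n + 2))) :
    RR β [0, 0] (List.replicate (n + 2) 0) := by
  rw [of_pow, of_pow] at h
  exact h

/-- the period from the identity -/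
theorem per_ex {β : FIC} {p q : ℕ} (hp : 2 ≤ p) (hq : 2 ≤ q)
    (h : β.r (lx * ly * lx) (lx ^ p * ly * lx ^ q)) : β.r (lx ^ 2) (lx ^ (p + q - 2 + 2)) := by
  have h1 := β.sub (FreeMonoid.lift (fun i => if i = 1 then (1 : Word) else FreeMonoid.of i)) h
  have ex : (FreeMonoid.lift (fun i => if i = 1 then (1 : Word) else FreeMonoid.of i) :
      Word →* Word) lx = lx := by simp [lx]
  have ey : (FreeMonoid.lift (fun i => if i = 1 then (1 : Word) else FreeMonoid.of i) :
      Word →* Word) ly = 1 := by simp [ly]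
  rw [map_mul, map_mul, map_mul, map_mul, map_pow, map_pow, ex, ey, mul_one, mul_one] at h1
  have e : p + q - 2 + 2 = p + q := by omega
  rw [e, pow_add, pow_two]
  exact h1

/-! ### duality -/

theorem op_distF {β : FIC} (h : DistF β) : DistF (FIC.op β) := by
  intro ρ σ τ hρ hσ hτ u v h1 h2
  have e : ∀ ρ : FIC, FIC.op β ≤ ρ → β ≤ FIC.op ρ := by
    intro ρ hρ a b hab
    apply hρ
    show β.r _ _
    rw [FreeMonoid.reverse_reverse, FreeMonoid.reverse_reverse]
    exact hab
  have h3 := h (FIC.op ρ) (FIC.op σ) (FIC.op τ) (e ρ hρ) (e σ hσ) (e τ hτ)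
    u.reverse v.reverse (FIC.sup_op h1) (FIC.sup_op h2)
  have h4 := FIC.sup_op h3
  have h5 : FIC.sup (FIC.op (FIC.op ρ)) (FIC.op (FIC.inf (FIC.op σ) (FIC.op τ))) ≤
      FIC.sup ρ (FIC.inf σ τ) := by
    apply FIC.sup_le
    · intro a b hab
      apply FIC.le_sup_left
      have : ρ.r a.reverse.reverse b.reverse.reverse := hab
      rwa [FreeMonoid.reverse_reverse, FreeMonoid.reverse_reverse] at this
    · intro a b hab
      apply FIC.le_sup_right
      have h6 : σ.r a.reverse.reverse b.reverse.reverse ∧ τ.r a.reverse.reverse b.reverse.reverse :=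
        hab
      rwa [FreeMonoid.reverse_reverse, FreeMonoid.reverse_reverse] at h6
  have h7 := h5 _ _ h4
  rwa [FreeMonoid.reverse_reverse, FreeMonoid.reverse_reverse] at h7

/-! ### sufficiency -/

section suf

variable {β : FIC} {n : ℕ}

theorem distF_w (hn : 1 ≤ n) (hper : RR β [0, 0] (List.replicate (n + 2) 0))
    (hbe : RR β [0, 1, 0] (List.replicate (n + 1) 0 ++ 1 :: List.replicate (n + 1) 0))
    (h1 : RR β [0, 1, 0, 1] [1, 0, 1, 0]) (h2 : RR β [0, 1, 0, 1] [0, 1, 1, 0])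
    (h3 : RR β [0, 1, 1, 2, 0] ([0, 1, 1] ++ (List.replicate n 0 ++ [2, 0]))) : DistF β := by
  apply CompS.mwbn_w1n n β
  have h4 := h2.sub (fun c => if c = 0 then [1] else [0])
  have h5 : RR β [1, 0, 1, 0] [1, 0, 0, 1] := h4
  exact MWBN.H85.clW_of hn hper hbe h1 (β.trans h1 h5) h3

theorem distF_b (hn : 1 ≤ n) (hper : RR β [0, 0] (List.replicate (n + 2) 0))
    (hbe : RR β [0, 1, 0] (List.replicate (n + 1) 0 ++ 1 :: List.replicate (n + 1) 0))
    (h1 : ∀ l : List ℕ, (∀ c ∈ l, 3 ≤ c) →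
      RR β ([0] ++ (pw (n + 1) l ++ [1, 2, 0, 1])) ([0] ++ (pw (n + 1) l ++ [1, 2, 1, 0])))
    (h2 : ∀ l : List ℕ, (∀ c ∈ l, 3 ≤ c) →
      RR β ([0, 1, 2, 0] ++ (pw (n + 1) l ++ [1])) ([1, 0, 2, 0] ++ (pw (n + 1) l ++ [1]))) :
    DistF β :=
  CompS.mwbn_b2n n β (MWBN.H85.clB_of CompS.mwbn_idn hn hper hbe
    (fun l hl => ⟨h1 l hl, h2 l hl⟩))

end suf

theorem distF_of {V : Variety} {p q n : ℕ} (hp : 2 ≤ p) (hq : 2 ≤ q)
    (h : V.Sat (lx * ly * lx) (lx ^ p * ly * lx ^ q)) (hn : 1 ≤ n)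
    (hper : V.Sat (lx ^ 2) (lx ^ (n + 2))) (hs : SysW n V ∨ CoSysW n V ∨ SysB n V) :
    DistF (th V) := by
  have hbe := be_of (β := th V) hp hq h hper
  have hper' := per_of (β := th V) hper
  rcases hs with hs | hs | hs
  · exact distF_w hn hper' hbe hs.zero hs.abel hs.move
  · have h1 : DistF (FIC.op (th V)) := by
      apply distF_w hn
      · rw [MWB.rr_op, List.reverse_replicate]
        exact hper'
      · rw [MWB.rr_op]
        have e : (List.replicate (n + 1) 0 ++ 1 :: List.replicate (n + 1) 0).reverse =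
            List.replicate (n + 1) 0 ++ 1 :: List.replicate (n + 1) 0 := by
          rw [List.reverse_append, List.reverse_cons, List.reverse_replicate, List.append_assoc]
          rfl
        rw [e]
        exact hbe
      · rw [MWB.rr_op]
        exact RR.symm hs.zero
      · rw [MWB.rr_op]
        have h2 : RR (th V) [1, 0, 1, 0] [0, 1, 0, 1] := RR.symm hs.zero
        exact (th V).trans h2 hs.abel
      · rw [MWB.rr_op]
        have e : ([0, 1, 1] ++ (List.replicate n 0 ++ [2, 0])).reverse =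
            [0, 2] ++ (List.replicate n 0 ++ [1, 1, 0]) := by
          rw [List.reverse_append, List.reverse_append, List.reverse_replicate]
          simp
        rw [e]
        exact hs.move
    have h2 := op_distF h1
    rwa [MWB.op_op] at h2
  · exact distF_b hn hper' hbe hs.right hs.left

/-! ### the theorem -/

theorem nec {V : Variety} {p q : ℕ} (hp : 2 ≤ p) (hq : 2 ≤ q)
    (h : V.Sat (lx * ly * lx) (lx ^ p * ly * lx ^ q)) (hc : ¬ V.CompletelyRegular)
    (hm : V.ModularLattice) :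
    ∃ n, 1 ≤ n ∧ V.Sat (lx ^ 2) (lx ^ (n + 2)) ∧ (SysW n V ∨ CoSysW n V ∨ SysB n V) := by
  have hper : V.Sat (lx ^ 2) (lx ^ (p + q - 2 + 2)) := per_ex (β := th V) hp hq h
  refine ⟨p + q - 2, by omega, hper, ?_⟩
  have hncr : ∀ k : ℕ, 1 ≤ k → ¬ (th V).r (lx ^ (k + 1)) lx := by
    intro k hk h1
    exact hc ((MWU.Cls.cr_iff V).2 ⟨k, hk, h1⟩)
  rcases Helper70_MWR.nec (β := th V) (by omega) (per_of hper) hncr
    (be_of (β := th V) hp hq h hper) ((modular_iff V).1 hm) with h1 | h1 | h1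
  · exact Or.inl ⟨h1.1, h1.2.1, h1.2.2.2⟩
  · obtain ⟨a1, a2, a3, a4⟩ := h1
    rw [MWB.rr_op] at a1 a2 a4
    refine Or.inr (Or.inl ⟨RR.symm a1, ?_, ?_⟩)
    · have h2 : RR (th V) [1, 0, 1, 0] [0, 1, 1, 0] := a2
      have h3 : RR (th V) [1, 0, 1, 0] [0, 1, 0, 1] := a1
      exact (th V).trans ((th V).symm h3) h2
    · have e : ([0, 1, 1] ++ (List.replicate (p + q - 2) 0 ++ [2, 0])).reverse =
          [0, 2] ++ (List.replicate (p + q - 2) 0 ++ [1, 1, 0]) := by
        rw [List.reverse_append, List.reverse_append, List.reverse_replicate]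
        simp
      rw [e] at a4
      exact a4
  · exact Or.inr (Or.inr ⟨h1.1, h1.2⟩)

/-- **Theorem.**  Let `V` be a variety of monoids which satisfies `xyx ≈ x^p y x^q` for some
`p, q ≥ 2`.  Then `L(V)` is modular if and only if `V` is completely regular or there is an `n ≥ 1`
such that `V` satisfies `x² ≈ x^(n+2)` and the identities of the first system, or those of its dual, or
those of the second system; and if `V` is not completely regular, then `L(V)` is modular if and only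
if it is distributive. -/
theorem result (V : Variety)
    (h : ∃ p q : ℕ, 2 ≤ p ∧ 2 ≤ q ∧ V.Sat (lx * ly * lx) (lx ^ p * ly * lx ^ q)) :
    (V.ModularLattice ↔ V.CompletelyRegular ∨
      ∃ n, 1 ≤ n ∧ V.Sat (lx ^ 2) (lx ^ (n + 2)) ∧ (SysW n V ∨ CoSysW n V ∨ SysB n V)) ∧
    (¬ V.CompletelyRegular → (V.ModularLattice ↔ V.DistribLattice)) := by
  obtain ⟨p, q, hp, hq, h⟩ := h
  refine ⟨⟨?_, ?_⟩, ?_⟩
  · intro hm
    by_cases hc : V.CompletelyRegular
    · exact Or.inl hc
    · exact Or.inr (nec hp hq h hc hm)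
  · intro hs
    rw [modular_iff]
    rcases hs with hs | ⟨n, hn, hper, hs⟩
    · obtain ⟨n, hn, h1⟩ := (MWU.Cls.cr_iff V).1 hs
      exact FIC.modular_CR (FIC.CR.of_letter hn h1)
    · exact distF_modF (distF_of hp hq h hn hper hs)
  · intro hc
    constructor
    · intro hm
      rw [distrib_iff]
      obtain ⟨n, hn, hper, hs⟩ := nec hp hq h hc hm
      exact distF_of hp hq h hn hper hs
    · intro hd
      exact (modular_iff V).2 (distF_modF ((distrib_iff V).1 hd))

end Pool.Agent.Helper70_MWR.Result
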